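import Mathlib

/-!
# Numbers unrelated to a CM field
-/

set_option autoImplicit false

namespace Pool.Agent.Y1.CT

open NumberField

/-- The complex number `α` is unrelated to the field `K`: a function `n` on the complex embeddings
of `K` with `n (conj φ) = - n φ` which is invariant under all automorphisms of the complex numbers
that fix some positive power of `α` is zero. -/
def UnrelatedTo (K : Type) [Field K] (α : ℂ) : Prop :=
  ∀ n : (K →+* ℂ) → ℚ, (∀ φ, n (ComplexEmbedding.conjugate φ) = - n φ) →
    (∀ τ : ℂ ≃+* ℂ, (∃ m : ℕ, 0 < m ∧ τ (α ^ m) = α ^ m) →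
      ∀ φ : K →+* ℂ, n ((τ : ℂ →+* ℂ).comp φ) = n φ) → n = 0

/-- The complex number `α` is not zero and unrelated to the fields `K i`. -/
def Unrelated {I : Type} (K : I → Type) [∀ i, Field (K i)] (α : ℂ) : Prop :=
  α ≠ 0 ∧ ∀ i, UnrelatedTo (K i) α

end Pool.Agent.Y1.CT
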