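import Mathlib
import Pool.Agent.W484.CK.Stm
import Pool.Agent.Y1.CT.UnrelDefs

/-!
# The Tate conjecture in one codimension, for products of abelian varieties and unrelated varieties
-/

set_option autoImplicit false

open CategoryTheory AlgebraicGeometry

universe u v w

namespace Pool.Agent.Y1.CT

open Polynomial Pool.Agent.H914 Pool.Agent.H914.VarClass Pool.Agent.H914.VarClass.Obj
  Pool.Agent.W492.BB Pool.Agent.W484.CK

variable {k : Type u} [Field k] {𝒱 : VarClass k} {C : TheoryData.{u, v, 0} 𝒱 ℚ} {F : Type w}
  [Field F] (H : WeilTheoryData.{u, v, w} C F) {A Z : 𝒱.Obj}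

/-- The eigenvalues of `π` on the cohomology of `Z` are roots of a nonzero rational polynomial all
of whose complex roots are unrelated to the fields `K i`. -/
def AreUnrelated [CharZero F] {I : Type} (K : I → Type) [∀ i, Field (K i)] (π : Z ⟶ Z) : Prop :=
  ∃ χ : ℚ[X], χ ≠ 0 ∧ (∀ (ρ : F) (v : H.A Z), v ≠ 0 → H.up π v = ρ • v → aeval ρ χ = 0) ∧
    ∀ ρ : ℂ, aeval ρ χ = 0 → Unrelated K ρ

/-- `πA` is the Frobenius endomorphism of an abelian variety `A` over the field with `q ^ s`
elements, isogenous to a product of powers of abelian varieties coming from the field with `q`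
elements with characteristic polynomials `f i`; `Z` is any variety over the field with `q ^ s`
elements, such that the eigenvalues of its Frobenius endomorphism `πZ` on the cohomology and their
conjugates are unrelated to the fields `K i`. -/
structure IsPair [CharZero F] {I : Type} (K : I → Type) [∀ i, Field (K i)] (q s : ℕ)
    (f : I → ℤ[X]) (πA : A ⟶ A) (πZ : Z ⟶ Z) : Prop where
  standard : IsStandard H
  pos : 0 < s
  abelian : IsAbelian H πA q s f
  unrelated : AreUnrelated H K πZ

/-- `w` is the class of a cycle of codimension `c`, with rational coefficients. -/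
def IsCycleClass (c : ℕ) (w : H.A Z) : Prop := ∃ x : C.A Z, C.Deg c x ∧ w = H.cl x

/-- The Tate conjecture for `Z` in codimension `c`: the elements of `H ^ (2 c) (Z)` on which the
Frobenius endomorphism `π` relative to the field with `Q` elements acts as multiplication by `Q ^ c`
are linear combinations of classes of cycles of codimension `c`. -/
def TateIn (π : Z ⟶ Z) (Q c : ℕ) : Prop :=
  ∀ w : H.A Z, H.Deg (2 * c) w → H.up π w = (Q : F) ^ c • w → InSpan H (IsCycleClass H c) w

/-- The Tate conjecture for `Z` in codimension `c` together with the semisimplicity of the eigenvalue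
`Q ^ c`: all generalized eigenvectors of `π` in `H ^ (2 c) (Z)` for the eigenvalue `Q ^ c` are linear
combinations of classes of cycles of codimension `c`. -/
def StrongTateIn (π : Z ⟶ Z) (Q c : ℕ) : Prop :=
  ∀ (m : ℕ) (w : H.A Z), H.Deg (2 * c) w → (fun v => H.up π v - (Q : F) ^ c • v)^[m] w = 0 →
    InSpan H (IsCycleClass H c) w

/-- Homological and numerical equivalence coincide for cycles of codimension `c` on `Z`, with rational
coefficients. (The intersection number of cycles `x`, `y` is the value of the orientation at the
class of `x · y`, up to a nonzero constant.) -/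
def HomNumIn (Z : 𝒱.Obj) (c : ℕ) : Prop :=
  ∀ x : C.A Z, C.Deg c x →
    (∀ (d : ℕ) (y : C.A Z), c + d = Z.dim → C.Deg d y → H.tr Z (H.cl (C.mul x y)) = 0) → H.cl x = 0

/-- `TateTimes K q f`: the following holds for the Chow groups `C` with rational coefficients of all
classes `𝒱` of varieties over fields `k` (finite, in the intended use), every Weil cohomology
theory `H` with coefficients in an algebraically closed field `F` of characteristic zero, all `A`,
`Z` as in `IsPair` and all `c`: the Tate conjecture holds for `A × Z` in codimension `c` if and only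
if it holds for `Z` in all codimensions `c - i` with `0 ≤ i ≤ dim A`; the same for the Tate
conjecture together with semisimplicity. -/
def TateTimes {I : Type} (K : I → Type) [∀ i, Field (K i)] (q : ℕ) (f : I → ℤ[X]) : Prop :=
  ∀ (k : Type) [Field k] (𝒱 : VarClass k) (C : TheoryData.{0, 0, 0} 𝒱 ℚ) [IsChow C]
    (F : Type) [Field F] [IsAlgClosed F] [CharZero F] (H : WeilTheoryData.{0, 0, 0} C F)
    [IsWeil H] (s : ℕ) (A Z : 𝒱.Obj) (πA : A ⟶ A) (πZ : Z ⟶ Z),
      IsPair H K q s f πA πZ → ∀ c : ℕ,
        (TateIn H (prodMap πA πZ) (q ^ s) c ↔ ∀ i ≤ A.dim, i ≤ c → TateIn H πZ (q ^ s) (c - i)) ∧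
        (StrongTateIn H (prodMap πA πZ) (q ^ s) c ↔
          ∀ i ≤ A.dim, i ≤ c → StrongTateIn H πZ (q ^ s) (c - i))

/-- `HomNumTimes K q f`: the following holds for the Chow groups `C` with rational coefficients of
all classes `𝒱` of varieties over fields `k` (finite, in the intended use), every Weil cohomology
theory `H` with coefficients in an algebraically closed field `F` of characteristic zero, all `A`,
`Z` as in `IsPair` where the Frobenius endomorphism `πA × πZ` acts on the Chow groups of `A × Z` in
the usual way, and all `c`: homological and numerical equivalence coincide for cycles of codimension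
`c` on `A × Z` if and only if they coincide for cycles of codimension `c - i` on `Z` for all
`0 ≤ i ≤ dim A`. -/
def HomNumTimes {I : Type} (K : I → Type) [∀ i, Field (K i)] (q : ℕ) (f : I → ℤ[X]) : Prop :=
  ∀ (k : Type) [Field k] (𝒱 : VarClass k) (C : TheoryData.{0, 0, 0} 𝒱 ℚ) [IsChow C]
    (F : Type) [Field F] [IsAlgClosed F] [CharZero F] (H : WeilTheoryData.{0, 0, 0} C F)
    [IsWeil H] (s : ℕ) (A Z : 𝒱.Obj) (πA : A ⟶ A) (πZ : Z ⟶ Z),
      IsPair H K q s f πA πZ → IsFrobenius C (prodMap πA πZ) (q ^ s) → ∀ c : ℕ,
        (HomNumIn H (A.prod Z) c ↔ ∀ i ≤ A.dim, i ≤ c → HomNumIn H Z (c - i))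

end Pool.Agent.Y1.CT
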