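import Mathlib

/-!
# Numbers independent of a CM field
-/

set_option autoImplicit false

namespace Pool.Agent.Y1.CT

open NumberField Polynomial

/-- The nonzero complex number `ρ` is independent of the fields `K i`: for each `i` and each
complex embedding `ψ` of `K i` there is an automorphism of the complex numbers which fixes a power
of `ρ` and is the complex conjugation on `ψ (K i)`. -/
def Independent {I : Type} (K : I → Type) [∀ i, Field (K i)] (ρ : ℂ) : Prop :=
  ρ ≠ 0 ∧ ∀ (i : I) (ψ : K i →+* ℂ), ∃ (τ : ℂ ≃+* ℂ) (m : ℕ), 0 < m ∧ τ (ρ ^ m) = ρ ^ m ∧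
    ∀ x, τ (ψ x) = ComplexEmbedding.conjugate ψ x

/-- `f` is a monic polynomial all of whose complex roots are conjugates of `π`, for instance a
power of the minimal polynomial of `π`. -/
def IsPolyOf {K : Type} [Field K] (π : K) (f : ℤ[X]) : Prop :=
  f.Monic ∧ ∀ z : ℂ, aeval z f = 0 → ∃ φ : K →+* ℂ, φ π = z

end Pool.Agent.Y1.CT
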