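import Mathlib
import Pool.Agent.TH170.FT.Defs
import Pool.Agent.W484.CK.NCTate
import Pool.Agent.Y1.CT.IndepDefs

/-!
# Products of abelian varieties with slope types in CM fields and independent varieties
-/

set_option autoImplicit false

open CategoryTheory AlgebraicGeometry

universe u v w

namespace Pool.Agent.Y1.CT

open Polynomial NumberField Pool.Agent.H914 Pool.Agent.H914.VarClass Pool.Agent.H914.VarClass.Obj
  Pool.Agent.W492.BB Pool.Agent.W484.CK Pool.Agent.TH170

variable {k : Type u} [Field k] {𝒱 : VarClass k} {C : TheoryData.{u, v, 0} 𝒱 ℚ} {F : Type w}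
  [Field F] (H : WeilTheoryData.{u, v, w} C F) {A X Y Z : 𝒱.Obj}

/-- The eigenvalues of `π` on the cohomology of `Z` are roots of a nonzero rational polynomial all
of whose complex roots are independent of the fields `K i`. -/
def EigenvaluesIndependent [CharZero F] {I : Type} (K : I → Type) [∀ i, Field (K i)] (π : Z ⟶ Z) :
    Prop :=
  ∃ χ : ℚ[X], χ ≠ 0 ∧ (∀ (ρ : F) (v : H.A Z), v ≠ 0 → H.up π v = ρ • v → aeval ρ χ = 0) ∧
    ∀ ρ : ℂ, aeval ρ χ = 0 → Independent K ρ

/-- The situation of the theorems: `πA` is the Frobenius endomorphism of an abelian variety `A` over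
the field with `q ^ s` elements, isogenous to a product of powers of abelian varieties coming from
the field with `q` elements with characteristic polynomials `f i`; `Z` is any variety over the field
with `q ^ s` elements, such that the eigenvalues of its Frobenius endomorphism `πZ` on the cohomology
and their conjugates are independent of the fields `K i`, and such that homologically trivial
self-correspondences of `A × Z` of degree zero are nilpotent. -/
structure IsSituation [CharZero F] {I : Type} (K : I → Type) [∀ i, Field (K i)] (q s : ℕ)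
    (f : I → ℤ[X]) (πA : A ⟶ A) (πZ : Z ⟶ Z) : Prop where
  standard : IsStandard H
  pos : 0 < s
  abelian : IsAbelian H πA q s f
  independent : EigenvaluesIndependent H K πZ
  nilpotence : Nilpotence H (A.prod Z)

/-- The same situation without an assumption on homologically trivial correspondences; `πA × πZ`
acts on the Chow groups of `A × Z` in the usual way. -/
structure IsOpenSituation [CharZero F] {I : Type} (K : I → Type) [∀ i, Field (K i)] (q s : ℕ)
    (f : I → ℤ[X]) (πA : A ⟶ A) (πZ : Z ⟶ Z) : Prop where
  standard : IsStandard H
  pos : 0 < s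
  abelian : IsAbelian H πA q s f
  independent : EigenvaluesIndependent H K πZ
  frobenius : IsFrobenius C (prodMap πA πZ) (q ^ s)

/-- A property `P K q f` of CM fields `K i`, a prime power `q` and polynomials `f i` holds for all
Weil numbers `π i` (for `q = p ^ a`, any `a > 0`) which generate the fields `K i` and have the slope
types `Φ i`, with the weights `M i`, and all monic polynomials `f i` whose complex roots are
conjugates of `π i`. -/
def ForAllOfType {p : ℕ} [Fact p.Prime] (ν : PadicAlgCl p ≃+* ℂ) {I : Type}
    (K : I → Type) [∀ i, Field (K i)] [∀ i, NumberField (K i)] [∀ i, IsCMField (K i)]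
    (M : ∀ i, (K i →+* ℂ) → ℤ) (P : ℕ → (I → ℤ[X]) → Prop) (Φ : ∀ i, Set (K i →+* ℂ)) : Prop :=
  ∀ (a : ℕ) (π : ∀ i, K i) (f : I → ℤ[X]), 0 < a → FT.IsOfType ν a K M Φ π →
    (∀ i, IsPolyOf (π i) (f i)) → P (p ^ a) f

end Pool.Agent.Y1.CT
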