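import Mathlib
import Pool.Agent.TH170.FT.Neat
import Pool.Agent.W484.HS.Abs
import Pool.Agent.Y1.CT.IndepDefs

/-!
# Products of Weil numbers with nondegenerate slope types and independent numbers
-/

set_option autoImplicit false
set_option linter.unusedSectionVars false
set_option linter.unusedVariables false

namespace Pool.Agent.Y1.CT

open NumberField Finset Module Polynomial Pool.Agent.H204R3.CM Pool.Agent.H977R3.CM
  Pool.Agent.TH170.CM Pool.Agent.TH170.MF Pool.Agent.TH170.FW Pool.Agent.H204R3.GP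
  Pool.Agent.TH170.GS Pool.Agent.W484.HS Pool.Agent.TH170

variable {p : ℕ} [Fact p.Prime] {ν : PadicAlgCl p ≃+* ℂ} {a : ℕ} {I : Type} [Fintype I]
  {K : I → Type} [∀ i, Field (K i)] [∀ i, NumberField (K i)] [∀ i, IsCMField (K i)]

/-- Functions on embeddings with values invariant up to a right translation. -/
theorem coeff_zero (hind : PairwiseIndep K) {M : ∀ i, (K i →+* ℂ) → ℤ}
    (hM : ∀ i φ, M i (ComplexEmbedding.conjugate φ) = M i φ)
    {Φ : ∀ i, Set (K i →+* ℂ)} (hΦ : ∀ i, IsCMType (Φ i)) (hnd : ∀ i, Φ i ∉ degTypes (M i))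
    (c : ∀ i, (K i →+* ℂ) → ℝ) (hc : ∀ i φ, c i (ComplexEmbedding.conjugate φ) = - c i φ)
    (i₀ : I) (ψ : K i₀ →+* ℂ) (τ : ℂ ≃+* ℂ) (hτ : ∀ x, τ (ψ x) = ComplexEmbedding.conjugate ψ x)
    (hinv : ∀ σ : ℂ ≃+* ℂ, ∑ i, ∑ φ : K i →+* ℂ, c i φ *
      ((CM.sgn (Φ i) (((τ.trans σ : ℂ ≃+* ℂ) : ℂ →+* ℂ).comp φ) *
        M i (((τ.trans σ : ℂ ≃+* ℂ) : ℂ →+* ℂ).comp φ) : ℤ) : ℝ) =
      ∑ i, ∑ φ : K i →+* ℂ, c i φ *
      ((CM.sgn (Φ i) ((σ : ℂ →+* ℂ).comp φ) * M i ((σ : ℂ →+* ℂ).comp φ) : ℤ) : ℝ)) :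
    c i₀ ψ = 0 := by
  classical
  let tr : ∀ i, (K i →+* ℂ) ≃ (K i →+* ℂ) := fun i =>
    { toFun := fun φ => (τ : ℂ →+* ℂ).comp φ
      invFun := fun φ => (τ.symm : ℂ →+* ℂ).comp φ
      left_inv := fun φ => by ext x; simp
      right_inv := fun φ => by ext x; simp }
  let c' : ∀ i, (K i →+* ℂ) → ℝ := fun i φ => c i ((tr i).symm φ) - c i φ
  have h0 := trivial_real hind hM hΦ hnd c' (fun i φ => ?_) (fun σ => ?_) i₀
    (ComplexEmbedding.conjugate ψ)
  · have h1 : (tr i₀).symm (ComplexEmbedding.conjugate ψ) = ψ := by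
      rw [Equiv.symm_apply_eq]
      ext x
      exact (hτ x).symm
    simp only [c'] at h0
    rw [h1, hc] at h0
    linarith
  · have h2 : (tr i).symm (ComplexEmbedding.conjugate φ) =
        ComplexEmbedding.conjugate ((tr i).symm φ) := QC.comp_conj τ.symm φ
    simp only [c']
    rw [h2, hc, hc]
    ring
  · have h3 := hinv σ
    rw [← sub_eq_zero, ← Finset.sum_sub_distrib] at h3
    rw [← h3]
    refine sum_congr rfl fun i _ => ?_
    have h5 : ∑ φ : K i →+* ℂ, c i ((tr i).symm φ) *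
        ((CM.sgn (Φ i) ((σ : ℂ →+* ℂ).comp φ) * M i ((σ : ℂ →+* ℂ).comp φ) : ℤ) : ℝ) =
        ∑ φ : K i →+* ℂ, c i φ *
        ((CM.sgn (Φ i) (((τ.trans σ : ℂ ≃+* ℂ) : ℂ →+* ℂ).comp φ) *
        M i (((τ.trans σ : ℂ ≃+* ℂ) : ℂ →+* ℂ).comp φ) : ℤ) : ℝ) := by
      refine Fintype.sum_equiv (tr i).symm _ _ fun φ => ?_
      have h4 : (((τ.trans σ : ℂ ≃+* ℂ) : ℂ →+* ℂ).comp ((tr i).symm φ)) =
          (σ : ℂ →+* ℂ).comp φ := by
        ext x
        change σ (τ (τ.symm (φ x))) = σ (φ x)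
        rw [RingEquiv.apply_symm_apply]
      rw [h4]
    rw [← h5, ← Finset.sum_sub_distrib]
    refine sum_congr rfl fun φ _ => ?_
    simp only [c']
    ring

/-- Minus the slope of a number. -/
noncomputable def lg {p : ℕ} [Fact p.Prime] (ν : PadicAlgCl p ≃+* ℂ) (x : ℂ) : ℝ :=
  Real.logb p ‖ν.symm x‖

theorem norm_ne {x : ℂ} (hx : x ≠ 0) : ‖ν.symm x‖ ≠ 0 := by
  rw [norm_ne_zero_iff]
  exact (_root_.map_ne_zero ν.symm).2 hx

theorem lg_mul {x y : ℂ} (hx : x ≠ 0) (hy : y ≠ 0) : lg ν (x * y) = lg ν x + lg ν y := by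
  unfold lg
  rw [map_mul, norm_mul, Real.logb_mul (norm_ne hx) (norm_ne hy)]

theorem lg_pow (x : ℂ) (n : ℕ) : lg ν (x ^ n) = n * lg ν x := by
  unfold lg
  rw [map_pow, norm_pow, Real.logb_pow]

theorem lg_zpow (x : ℂ) (n : ℤ) : lg ν (x ^ n) = n * lg ν x := by
  unfold lg
  rw [map_zpow₀, norm_zpow, Real.logb, Real.log_zpow, Real.logb, mul_div_assoc]

theorem lg_p : lg ν (p : ℂ) = -1 := by
  unfold lg
  have hp1 : (1 : ℝ) < p := by exact_mod_cast (Fact.out : p.Prime).one_lt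
  rw [norm_symm_p, Real.logb_inv, Real.logb_self_eq_one hp1]

theorem lg_list {X : Type} (w : X → ℂ) (l : List X) (h : ∀ z ∈ l, w z ≠ 0) :
    (l.map w).prod ≠ 0 ∧ lg ν (l.map w).prod = (l.map fun z => lg ν (w z)).sum := by
  induction l with
  | nil =>
    refine ⟨by simp, ?_⟩
    simp [lg]
  | cons a l ih =>
    obtain ⟨h1, h2⟩ := ih fun z hz => h z (List.mem_cons_of_mem _ hz)
    have h3 := h a List.mem_cons_self
    refine ⟨by rw [List.map_cons, List.prod_cons]; exact mul_ne_zero h3 h1, ?_⟩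
    rw [List.map_cons, List.prod_cons, List.map_cons, List.sum_cons, lg_mul h3 h1, h2]

theorem sum_list {X Y : Type} [Fintype Y] [DecidableEq Y] (idx : X → Y) (u : Y → ℝ) (l : List X) :
    ∑ y, (l.map fun z => if idx z = y then (1 : ℝ) else 0).sum * u y =
      (l.map fun z => u (idx z)).sum := by
  induction l with
  | nil => simp
  | cons a l ih =>
    simp only [List.map_cons, List.sum_cons, add_mul, Finset.sum_add_distrib]
    rw [ih]
    congr 1
    simp

theorem count_pos {X Y : Type} [DecidableEq Y] (idx : X → Y) (y : Y) (l : List X) :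
    0 < (l.map fun z => if idx z = y then (1 : ℝ) else 0).sum ↔ ∃ z ∈ l, idx z = y := by
  induction l with
  | nil => simp
  | cons a l ih =>
    rw [List.map_cons, List.sum_cons]
    have h0 : 0 ≤ (l.map fun z => if idx z = y then (1 : ℝ) else 0).sum := by
      apply List.sum_nonneg
      intro x hx
      obtain ⟨z, -, rfl⟩ := List.mem_map.1 hx
      split_ifs <;> norm_num
    by_cases h : idx a = y
    · rw [if_pos h]
      refine ⟨fun _ => ⟨a, List.mem_cons_self, h⟩, fun _ => by linarith⟩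
    · rw [if_neg h, zero_add, ih]
      constructor
      · rintro ⟨z, hz, h1⟩
        exact ⟨z, List.mem_cons_of_mem _ hz, h1⟩
      · rintro ⟨z, hz, h1⟩
        rcases List.mem_cons.1 hz with rfl | hz
        · exact absurd h1 h
        · exact ⟨z, hz, h1⟩

/-- The complex roots of the polynomials. -/
abbrev Root (f : I → ℤ[X]) : Type := {z : ℂ // ∃ i, aeval z (f i) = 0}

theorem exactPair_types (hind : PairwiseIndep K) {M : ∀ i, (K i →+* ℂ) → ℤ}
    (hM : ∀ i φ, M i (ComplexEmbedding.conjugate φ) = M i φ)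
    {Φ : ∀ i, Set (K i →+* ℂ)} (hΦ : ∀ i, IsCMType (Φ i)) (hnd : ∀ i, Φ i ∉ degTypes (M i))
    {π : ∀ i, K i} (hπ : FT.IsOfType ν a K M Φ π) (f : I → ℤ[X])
    (hf : ∀ i, IsPolyOf (π i) (f i)) (s : ℕ) (hs : 0 < s) (ρ : ℂ) (hρ : Independent K ρ) :
    ExactPairK (fun z : Root f => (z : ℂ) ^ s) (((p ^ a : ℕ) : ℂ) ^ s) ρ := by
  classical
  intro n c N hN hn ys hlen hrel hpw
  have hp0 : (p : ℂ) ≠ 0 := Nat.cast_ne_zero.2 (Fact.out : p.Prime).ne_zero
  have hQ0 : (((p ^ a : ℕ) : ℂ) ^ s) ≠ 0 := by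
    push_cast
    exact pow_ne_zero _ (pow_ne_zero _ hp0)
  have hπ0 : ∀ i, π i ≠ 0 := by
    intro i h0
    have h1 := hπ.weil i
    rw [h0, zero_mul] at h1
    exact pow_ne_zero a (Nat.cast_ne_zero.2 (Fact.out : p.Prime).ne_zero) h1.symm
  choose κ hκ hsl using hπ.slopes
  let Y : Type := Σ i, (K i →+* ℂ)
  have hz : ∀ z : Root f, ∃ y : Y, y.2 (π y.1) = z := by
    rintro ⟨z, i, hi⟩
    obtain ⟨φ, hφ⟩ := (hf i).2 z hi
    exact ⟨⟨i, φ⟩, hφ⟩
  choose idx hidx using hz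
  have hz0 : ∀ z : Root f, (z : ℂ) ≠ 0 := by
    intro z
    rw [← hidx z]
    exact (_root_.map_ne_zero _).2 (hπ0 _)
  let inv : Y → Y := fun z => ⟨z.1, ComplexEmbedding.conjugate z.2⟩
  have hinv : ∀ y : Y, inv (inv y) = y := by
    rintro ⟨i, φ⟩
    simp only [inv, conj_conj]
  let ε : ∀ i, (K i →+* ℂ) → ℝ := fun i φ => ((CM.sgn (Φ i) φ * M i φ : ℤ) : ℝ)
  have hεc : ∀ i φ, ε i (ComplexEmbedding.conjugate φ) = - ε i φ := by
    intro i φ
    simp only [ε]
    rw [hM, (oddSign_sgn (hΦ i)).2]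
    push_cast
    ring
  let u : (ℂ ≃+* ℂ) → Y → ℝ := fun σ y => κ y.1 * ε y.1 ((σ : ℂ →+* ℂ).comp y.2)
  have hu : ∀ σ y, u σ (inv y) = - u σ y := by
    rintro σ ⟨i, φ⟩
    change κ i * ε i ((σ : ℂ →+* ℂ).comp (ComplexEmbedding.conjugate φ)) =
      -(κ i * ε i ((σ : ℂ →+* ℂ).comp φ))
    rw [QC.comp_conj, hεc]
    ring
  -- the slopes of the roots
  have hdev : ∀ (σ : ℂ ≃+* ℂ) (z : Root f), -(2 * lg ν (σ z)) = a + u σ (idx z) := by
    intro σ z
    have h4 := hsl (idx z).1 ((σ : ℂ →+* ℂ).comp (idx z).2)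
    have h5 : ((σ : ℂ →+* ℂ).comp (idx z).2) (π (idx z).1) = σ z := by
      rw [← hidx z]
      rfl
    rw [h5] at h4
    have h6 : u σ (idx z) = 2 * (- Real.logb p ‖ν.symm (σ z)‖) - a := by
      rw [h4]
      simp only [u, ε, CM.sgn]
      split_ifs
      · push_cast
        ring
      · push_cast
        ring
    rw [h6]
    unfold lg
    ring
  -- the relation
  have hN0 : (N : ℝ) ≠ 0 := Nat.cast_ne_zero.2 hN.ne'
  have hρ0 : ρ ≠ 0 := hρ.1
  have hlog : ∀ σ : ℂ ≃+* ℂ, s * (ys.map fun z : Root f => lg ν (σ z)).sum + lg ν (σ ρ) =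
      -(c * (s * a)) := by
    intro σ
    have h1 := congrArg (fun x => lg ν (σ x)) hrel
    simp only [map_pow, map_mul, map_zpow₀, lg_pow, lg_zpow] at h1
    have h2 := mul_left_cancel₀ hN0 h1
    have h3 : σ ((ys.map fun z : Root f => (z : ℂ) ^ s).prod) =
        (ys.map fun z : Root f => (σ z) ^ s).prod := by
      rw [_root_.map_list_prod, List.map_map]
      congr 1
      refine List.map_congr_left fun z _ => ?_
      rw [Function.comp_apply, map_pow]
    rw [h3] at h2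
    obtain ⟨h4, h5⟩ := lg_list (ν := ν) (fun z : Root f => (σ (z : ℂ)) ^ s) ys
      (fun z _ => pow_ne_zero _ ((_root_.map_ne_zero σ).2 (hz0 z)))
    rw [lg_mul h4 ((_root_.map_ne_zero σ).2 hρ0), h5] at h2
    have h6 : (ys.map fun z : Root f => lg ν ((σ (z : ℂ)) ^ s)).sum =
        s * (ys.map fun z : Root f => lg ν (σ z)).sum := by
      rw [← List.sum_map_mul_left]
      congr 1
      refine List.map_congr_left fun z _ => ?_
      rw [lg_pow]
    rw [h6] at h2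
    rw [h2, map_natCast]
    push_cast
    rw [lg_pow, lg_p]
    ring
  -- the sums of the deviations
  have hsum : ∀ σ : ℂ ≃+* ℂ, (ys.map fun z : Root f => u σ (idx z)).sum =
      2 * (c * a + lg ν (σ ρ) / s) - a * n := by
    intro σ
    have h1 : (ys.map fun z : Root f => u σ (idx z)).sum =
        -(2 * (ys.map fun z : Root f => lg ν (σ z)).sum) - a * n := by
      have h2 : ∀ l : List (Root f), (l.map fun z : Root f => u σ (idx z)).sum =
          -(2 * (l.map fun z : Root f => lg ν (σ z)).sum) - a * l.length := by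
        intro l
        induction l with
        | nil => simp
        | cons z l ih =>
          rw [List.map_cons, List.sum_cons, ih, List.map_cons, List.sum_cons, List.length_cons]
          have h3 := hdev σ z
          push_cast
          linarith
      rw [h2, hlen]
    have hs' : (s : ℝ) ≠ 0 := Nat.cast_ne_zero.2 hs.ne'
    have h2 : (ys.map fun z : Root f => lg ν (σ z)).sum =
        -(c * a) - lg ν (σ ρ) / s := by
      apply mul_left_cancel₀ hs'
      rw [mul_sub, mul_div_cancel₀ _ hs']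
      have := hlog σ
      linarith
    rw [h1, h2]
    ring
  let cnt : Y → ℝ := fun y => (ys.map fun z => if idx z = y then (1 : ℝ) else 0).sum
  have hcnt : ∀ y, cnt y = cnt (inv y) := by
    let cc : ∀ i, (K i →+* ℂ) → ℝ := fun i φ => κ i * (cnt ⟨i, φ⟩ - cnt (inv ⟨i, φ⟩))
    have hF : ∀ σ : ℂ ≃+* ℂ, ∑ i, ∑ φ : K i →+* ℂ, cc i φ *
        ((CM.sgn (Φ i) ((σ : ℂ →+* ℂ).comp φ) * M i ((σ : ℂ →+* ℂ).comp φ) : ℤ) : ℝ) =
        2 * (ys.map fun z : Root f => u σ (idx z)).sum := by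
      intro σ
      have h1 : ∑ i, ∑ φ : K i →+* ℂ, cc i φ *
          ((CM.sgn (Φ i) ((σ : ℂ →+* ℂ).comp φ) * M i ((σ : ℂ →+* ℂ).comp φ) : ℤ) : ℝ) =
          ∑ y : Y, (cnt y - cnt (inv y)) * u σ y := by
        rw [← Finset.univ_sigma_univ, Finset.sum_sigma]
        refine sum_congr rfl fun i _ => sum_congr rfl fun φ _ => ?_
        simp only [cc, u, ε]
        ring
      have h2 : ∑ y : Y, cnt (inv y) * u σ y = ∑ y : Y, -(cnt y * u σ y) := by
        refine Finset.sum_nbij' inv inv (fun _ _ => Finset.mem_univ _)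
          (fun _ _ => Finset.mem_univ _) (fun y _ => hinv y) (fun y _ => hinv y) (fun y _ => ?_)
        rw [hu]
        ring
      rw [h1]
      simp only [sub_mul, Finset.sum_sub_distrib]
      rw [h2, Finset.sum_neg_distrib, ← sum_list idx (u σ) ys]
      ring
    rintro ⟨i, φ⟩
    obtain ⟨τ, m, hm, hτ1, hτ2⟩ := hρ.2 i φ
    have h0 := coeff_zero hind hM hΦ hnd cc (fun i φ => ?_) i φ τ hτ2 (fun σ => ?_)
    · have h1 := (mul_eq_zero.1 h0).resolve_left (hκ i)
      exact sub_eq_zero.1 h1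
    · simp only [cc, inv, conj_conj]
      ring
    · rw [hF, hF, hsum, hsum]
      have h2 : lg ν ((τ.trans σ) ρ) = lg ν (σ ρ) := by
        have hm' : (m : ℝ) ≠ 0 := Nat.cast_ne_zero.2 hm.ne'
        apply mul_left_cancel₀ hm'
        rw [← lg_pow, ← lg_pow, ← map_pow, ← map_pow]
        change lg ν (σ (τ (ρ ^ m))) = _
        rw [hτ1]
      rw [h2]
  -- the first element of the list
  obtain ⟨z₀, hz₀⟩ := List.exists_mem_of_length_pos (l := ys) (by omega)
  have h1 : 0 < cnt (idx z₀) := (count_pos idx _ ys).2 ⟨z₀, hz₀, rfl⟩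
  rw [hcnt] at h1
  obtain ⟨z₁, hz₁, h2⟩ := (count_pos idx _ ys).1 h1
  have hne : z₀ ≠ z₁ := by
    rintro rfl
    have h3 : (idx z₀).2 = ComplexEmbedding.conjugate (idx z₀).2 := by
      have h4 : idx z₀ = ⟨(idx z₀).1, ComplexEmbedding.conjugate (idx z₀).2⟩ := h2
      exact eq_of_heq (Sigma.mk.inj h4).2
    exact conj_ne _ h3.symm
  have hsymm : Std.Symm (fun y y' : Root f => (y : ℂ) ^ s * (y' : ℂ) ^ s ≠
      ((p ^ a : ℕ) : ℂ) ^ s) := ⟨by
    intro x y h h'
    exact h (by rw [mul_comm]; exact h')⟩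
  refine hpw.forall hz₀ hz₁ hne ?_
  have h3 : (z₁ : ℂ) = ComplexEmbedding.conjugate (idx z₀).2 (π (idx z₀).1) := by
    rw [← hidx z₁, h2]
  change (z₀ : ℂ) ^ s * (z₁ : ℂ) ^ s = _
  rw [h3, ← hidx z₀, ← mul_pow]
  congr 1
  have h4 := congrArg (idx z₀).2 (hπ.weil (idx z₀).1)
  rw [map_mul, IsCMField.complexEmbedding_complexConj, map_pow, map_natCast] at h4
  rw [ComplexEmbedding.conjugate_coe_eq, h4]
  push_cast
  rfl

end Pool.Agent.Y1.CT
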