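import Mathlib
import Pool.Agent.W484.CK.KunnethEig
import Pool.Agent.W484.CK.NCTateMain
import Pool.Agent.Y1.CT.Field

/-!
# The Kunneth formula for products with abelian varieties without relations
-/

set_option autoImplicit false
set_option linter.unusedSectionVars false
set_option linter.unusedVariables false

open CategoryTheory AlgebraicGeometry

universe u v w

namespace Pool.Agent.Y1.CT

open Module Polynomial Pool.Agent.H914 Pool.Agent.H914.VarClass Pool.Agent.H914.VarClass.Obj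
  Pool.Agent.W492.BB Pool.Agent.W550.Corr Pool.Agent.W484.HS Pool.Agent.W484.CH

variable {k : Type u} [Field k] {𝒱 : VarClass k} {C : TheoryData.{u, v, 0} 𝒱 ℚ} {K : Type w}
  [Field K] [CharZero K] {H : WeilTheoryData.{u, v, w} C K} [hC : IsChow C] [hH : IsWeil H]
  {A Z X Y : 𝒱.Obj}

/-- There are no relations between the roots of the `f i`, numbers with the property `R` and powers
of `q`, except the obvious ones. -/
structure NoRel {I : Type} (f : I → ℤ[X]) (q : ℕ) (R : ℂ → Prop) : Prop where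
  monic : ∀ i, (f i).Monic
  one : R 1
  pair : ∀ s : ℕ, 0 < s → ∀ ρ : ℂ, R ρ →
    ExactPairK (fun z : {z : ℂ // ∃ i, aeval z (f i) = 0} => (z : ℂ) ^ s) ((q : ℂ) ^ s) ρ

/-- The eigenvalues of `φ` are roots of a nonzero rational polynomial whose complex roots have the
property `R`. -/
def EigenIn {V : Type*} [AddCommGroup V] [Module K V] (R : ℂ → Prop) (φ : V →ₗ[K] V) : Prop :=
  ∃ χ : ℚ[X], χ ≠ 0 ∧ (∀ (ρ : K) (v : V), v ≠ 0 → φ v = ρ • v → aeval ρ χ = 0) ∧
    ∀ ρ : ℂ, aeval ρ χ = 0 → R ρ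

variable {I : Type} {q : ℕ} (hq : 1 < q) {f : I → ℤ[X]} {R : ℂ → Prop} (hR : NoRel f q R)

include hR in
theorem root_one (ρ : ℂ) (h : aeval ρ (Polynomial.X - 1 : ℚ[X]) = 0) : R ρ := by
  rw [map_sub, aeval_X, map_one, sub_eq_zero] at h
  rw [h]
  exact hR.one

include hq hR in
/-- **Existence of a good basis.** -/
theorem exists_good_basis (hS : IsStandard H) {s : ℕ} (hs : 0 < s) {πA : A ⟶ A}
    (hA : IsAbelian H πA q s f) :
    ∃ (n : ℕ) (b : Basis (Fin n) K (H.A A)) (α : Fin n → K),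
      (∀ t, H.pull πA (b t) = α t • b t) ∧ (∀ t, IsIntegral ℚ (α t)) ∧
      ∀ (χ : ℚ[X]), χ ≠ 0 → (∀ ρ : ℂ, aeval ρ χ = 0 → R ρ) → ∀ ρ : K, aeval ρ χ = 0 →
        ∀ t (c : ℤ), α t * ρ = ((q ^ s : ℕ) : K) ^ c →
          ∃ l : ℕ, α t = ((q ^ s : ℕ) : K) ^ l ∧ b t ∈ NK H A l := by
  have hfin := hS.finite A
  have hq0 : q ≠ 0 := by omega
  let val : {z : K // ∃ i, aeval z (f i) = 0} → K := fun z => (z : K) ^ s
  have hU : Submodule.span K {v : H.A A | v ∈ H.gr A 1 ∧ ∃ y, H.pull πA v = val y • v} =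
      H.gr A 1 := by
    refine Eq.trans ?_ hA.eigen
    congr 1
    ext v
    constructor
    · rintro ⟨h1, ⟨z, i, hz⟩, h2⟩
      exact ⟨h1, i, z, hz, h2⟩
    · rintro ⟨h1, i, z, hz, h2⟩
      exact ⟨h1, ⟨z, i, hz⟩, h2⟩
  obtain ⟨n, b, α, hb⟩ := exists_basis (H.pull πA) val (H.gr A 1) hU hA.generated
  have hQ : ((q ^ s : ℕ) : K) = (q : K) ^ s := by push_cast; rfl
  have hQ0 : (q : K) ^ s ≠ 0 := pow_ne_zero _ (by exact_mod_cast hq0)
  refine ⟨n, b, α, fun t => (hb t).1, fun t => ?_, ?_⟩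
  · obtain ⟨-, L, -, -, hL⟩ := hb t
    rw [hL]
    clear hL
    induction L with
    | nil => simpa using isIntegral_one
    | cons a L ih =>
      rw [List.map_cons, List.prod_cons]
      refine IsIntegral.mul ?_ ih
      obtain ⟨i, hi⟩ := a.2.2
      have h1 : IsIntegral ℤ (a.2 : K) := ⟨f i,
        hR.monic i, hi⟩
      exact (h1.tower_top (A := ℚ)).pow s
  · intro χ hχ hrank ρ hρ t c hc
    obtain ⟨-, L, hL1, hL2, hL3⟩ := hb t
    have hpair := exactPair_field f hR.monic q s χ hχ (fun ρ hρ => hR.pair s hs ρ (hrank ρ hρ)) ρ hρ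
    have h1 := list_graded (H.pull πA) val ((q : K) ^ s) ρ hQ0 hpair (NK H A) one_mem_NK
      (fun a ha l b hb => by
        rw [add_comm l 1]
        exact mul_mem_NK ha hb)
      (H.gr A 1 : Set (H.A A)) (fun a ha b hb => hA.anticomm a b ha hb)
      (fun a ha b hb y y' h2 h3 h4 => by
        apply mem_NK_one
        refine hA.tate (a * b) (H.mul_mem ha hb) ?_
        change H.pull πA (a * b) = _
        rw [map_mul, h2, h3, smul_mul_smul_comm, h4, hQ])
      L.length c 1 one_pos L rfl hL1 (by rw [pow_one, pow_one, ← hL3, ← hQ]; exact hc)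
    obtain ⟨l, -, h2, h3⟩ := h1
    refine ⟨l, ?_, ?_⟩
    · rw [hL3, h2, hQ]
    · rw [hL2]
      exact h3

include hq hR in
/-- **The Kunneth formula.** -/
theorem kunneth_main [IsAlgClosed K] (hS : IsStandard H) {s : ℕ} (hs : 0 < s) {πA : A ⟶ A}
    {πZ : Z ⟶ Z} (hA : IsAbelian H πA q s f)
    (hZ : EigenIn R (frob H πZ)) (hnil : Nilpotence H (A.prod Z)) :
    ∃ (J : Type) (_ : Fintype J) (deg : J → ℕ) (D E : J → C.A A), IsDual A Z deg D E ∧
      (∀ j, D j ∈ DivProd C A (deg j)) ∧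
      ∀ T : CorrData C, IsCorrTheory T → ActsAsPower T (prodMap πA πZ) (q ^ s) →
        ∀ (i : ℤ) (m : T.M (A.prod Z)), m ∈ T.gr (A.prod Z) i →
          m = ∑ j, T.act (extBy C Z (D j)) (T.act (pairBy C Z (E j)) m) := by
  obtain ⟨n, b, α, hb, hα, hgood⟩ := exists_good_basis hq hR hS hs hA
  have hQ1 : 1 < q ^ s := Nat.one_lt_pow hs.ne' hq
  have hX1 : (Polynomial.X - 1 : ℚ[X]) ≠ 0 := by
    have := Polynomial.X_sub_C_ne_zero (1 : ℚ)
    rwa [map_one] at this
  have h1 : ∀ t (c : ℤ), α t = ((q ^ s : ℕ) : K) ^ c →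
      ∃ l : ℕ, α t = ((q ^ s : ℕ) : K) ^ l ∧ b t ∈ NK H A l := by
    intro t c hc
    exact hgood _ hX1 (root_one hR) 1 (by rw [map_sub, aeval_X, map_one, sub_self]) t c
      (by rw [mul_one]; exact hc)
  obtain ⟨J, hJ, deg, D, E', hdual, hD, hN⟩ := exists_dual hS hA.frobenius hQ1 b α hb h1 Z
  refine ⟨J, hJ, deg, D, E', hdual, hD, fun T hT hπ i m hm => ?_⟩
  obtain ⟨χ, hχ, hχe, hrank⟩ := hZ
  have hfinX : Module.Finite K (H.A (A.prod Z)) := hS.finite _
  obtain ⟨P, hP, m', hPm⟩ := exists_poly (frob H (prodMap πA πZ)) (((q ^ s : ℕ) : ℚ) ^ i) (by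
    intro μ v hv0 hv
    refine integral_eigen hS b α hb hα ?_ μ v hv0 hv
    intro ρ v hv0 hv
    exact (isAlgebraic_iff_isIntegral).1 ⟨χ, hχ, hχe ρ v hv0 hv⟩)
  refine kunneth_core hdual hT hπ hnil i P hP ?_ hm
  intro w
  apply act_proj_mix hdual hN
  rw [act_cl_polyC]
  refine mem_mix (πZ := πZ) hS b α hb (Q := q ^ s) (by omega) i ?_ m' _ ?_
  · intro t ρ v hv0 hv hc
    obtain ⟨l, -, hl⟩ := hgood χ hχ hrank ρ (hχe ρ v hv0 hv) t i hc
    exact ⟨l, hl⟩
  · have h2 := hPm w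
    push_cast at h2 ⊢
    exact h2

include hq hR in
/-- **The Kunneth formula with both systems.** -/
theorem kunneth_both [IsAlgClosed K] (hS : IsStandard H) {s : ℕ} (hs : 0 < s) {πA : A ⟶ A}
    {πZ : Z ⟶ Z} (hA : IsAbelian H πA q s f)
    (hZ : EigenIn R (frob H πZ)) (hnil : Nilpotence H (A.prod Z)) :
    ∃ (J : Type) (_ : Fintype J) (deg : J → ℕ) (D E : J → C.A A), Nonempty J ∧
      IsDual A Z deg D E ∧
      (∀ j, D j ∈ DivProd C A (deg j)) ∧
      (∀ j, E j ∈ Submodule.span ℚ (DivProd C A (A.dim - deg j))) ∧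
      ∀ T : CorrData C, IsCorrTheory T → ActsAsPower T (prodMap πA πZ) (q ^ s) →
        ∀ (i : ℤ) (m : T.M (A.prod Z)), m ∈ T.gr (A.prod Z) i →
          m = ∑ j, T.act (extBy C Z (D j)) (T.act (pairBy C Z (E j)) m) ∧
          m = ∑ j, T.act (extBy C Z (E j)) (T.act (pairBy C Z (D j)) m) := by
  obtain ⟨n, b, α, hb, hα, hgood⟩ := exists_good_basis hq hR hS hs hA
  have hQ1 : 1 < q ^ s := Nat.one_lt_pow hs.ne' hq
  have hX1 : (Polynomial.X - 1 : ℚ[X]) ≠ 0 := by
    have := Polynomial.X_sub_C_ne_zero (1 : ℚ)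
    rwa [map_one] at this
  have h1 : ∀ t (c : ℤ), α t = ((q ^ s : ℕ) : K) ^ c →
      ∃ l : ℕ, α t = ((q ^ s : ℕ) : K) ^ l ∧ b t ∈ NK H A l := by
    intro t c hc
    exact hgood _ hX1 (root_one hR) 1 (by rw [map_sub, aeval_X, map_one, sub_self]) t c
      (by rw [mul_one]; exact hc)
  obtain ⟨J, hJ, deg, D, E', hdual, hD, hE, hN⟩ :=
    exists_dual2 hS hA.frobenius hQ1 b α hb h1 Z
  have hN' := span_dual hS hA.frobenius hQ1 b α hb h1 Z hdual hE hN
  have hne : Nonempty J := by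
    by_contra hne
    rw [not_nonempty_iff] at hne
    have h2 := hN 0 (one_mem_NK (H := H) (A := A))
    have h3 : {c : H.A A | ∃ j, deg j = 0 ∧ c = H.cl (D j)} = ∅ := by
      ext c
      constructor
      · rintro ⟨j, -⟩
        exact hne.elim j
      · intro h
        exact h.elim
    rw [h3, Submodule.span_empty, Submodule.mem_bot] at h2
    have := hS.nontrivial A
    exact one_ne_zero h2
  refine ⟨J, hJ, deg, D, E', hne, hdual, hD, hE, fun T hT hπ i m hm => ?_⟩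
  obtain ⟨χ, hχ, hχe, hrank⟩ := hZ
  have hfinX : Module.Finite K (H.A (A.prod Z)) := hS.finite _
  obtain ⟨P, hP, m', hPm⟩ := exists_poly (frob H (prodMap πA πZ)) (((q ^ s : ℕ) : ℚ) ^ i) (by
    intro μ v hv0 hv
    refine integral_eigen hS b α hb hα ?_ μ v hv0 hv
    intro ρ v hv0 hv
    exact (isAlgebraic_iff_isIntegral).1 ⟨χ, hχ, hχe ρ v hv0 hv⟩)
  have hmix : ∀ w : H.A (A.prod Z), H.act (H.cl (polyC (prodMap πA πZ) P)) w ∈ mix H A Z := by
    intro w
    rw [act_cl_polyC]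
    refine mem_mix (πZ := πZ) hS b α hb (Q := q ^ s) (by omega) i ?_ m' _ ?_
    · intro t ρ v hv0 hv hc
      obtain ⟨l, -, hl⟩ := hgood χ hχ hrank ρ (hχe ρ v hv0 hv) t i hc
      exact ⟨l, hl⟩
    · have h2 := hPm w
      push_cast at h2 ⊢
      exact h2
  exact ⟨kunneth_core hdual hT hπ hnil i P hP (fun w => act_proj_mix hdual hN (hmix w)) hm,
    kunneth_core hdual.symm hT hπ hnil i P hP (fun w => act_proj_mix hdual.symm hN' (hmix w)) hm⟩

include hq hR in
/-- **The Kunneth formula for eigenvectors of Frobenius.** -/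
theorem kunneth_eigen [IsAlgClosed K] (hS : IsStandard H) {s : ℕ} (hs : 0 < s) {πA : A ⟶ A}
    {πZ : Z ⟶ Z} (hA : IsAbelian H πA q s f)
    (hZ : EigenIn R (frob H πZ)) :
    ∃ (J : Type) (_ : Fintype J) (deg : J → ℕ) (D E : J → C.A A), Nonempty J ∧
      IsDual A Z deg D E ∧
      (∀ j, D j ∈ DivProd C A (deg j)) ∧
      (∀ j, E j ∈ Submodule.span ℚ (DivProd C A (A.dim - deg j))) ∧
      ∀ (i : ℤ) (w : H.A (A.prod Z)),
        H.pull (prodMap πA πZ) w = ((q ^ s : ℕ) : K) ^ i • w →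
          H.act (H.cl (proj Z D E)) w = w ∧ H.act (H.cl (proj Z E D)) w = w := by
  obtain ⟨n, b, α, hb, hα, hgood⟩ := exists_good_basis hq hR hS hs hA
  have hQ1 : 1 < q ^ s := Nat.one_lt_pow hs.ne' hq
  have hX1 : (Polynomial.X - 1 : ℚ[X]) ≠ 0 := by
    have := Polynomial.X_sub_C_ne_zero (1 : ℚ)
    rwa [map_one] at this
  have h1 : ∀ t (c : ℤ), α t = ((q ^ s : ℕ) : K) ^ c →
      ∃ l : ℕ, α t = ((q ^ s : ℕ) : K) ^ l ∧ b t ∈ NK H A l := by
    intro t c hc
    exact hgood _ hX1 (root_one hR) 1 (by rw [map_sub, aeval_X, map_one, sub_self]) t c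
      (by rw [mul_one]; exact hc)
  obtain ⟨J, hJ, deg, D, E', hdual, hD, hE, hN⟩ :=
    exists_dual2 hS hA.frobenius hQ1 b α hb h1 Z
  have hN' := span_dual hS hA.frobenius hQ1 b α hb h1 Z hdual hE hN
  have hne : Nonempty J := by
    by_contra hne
    rw [not_nonempty_iff] at hne
    have h2 := hN 0 (one_mem_NK (H := H) (A := A))
    have h3 : {c : H.A A | ∃ j, deg j = 0 ∧ c = H.cl (D j)} = ∅ := by
      ext c
      constructor
      · rintro ⟨j, -⟩
        exact hne.elim j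
      · intro h
        exact h.elim
    rw [h3, Submodule.span_empty, Submodule.mem_bot] at h2
    have := hS.nontrivial A
    exact one_ne_zero h2
  refine ⟨J, hJ, deg, D, E', hne, hdual, hD, hE, fun i w hw => ?_⟩
  obtain ⟨χ, hχ, hχe, hrank⟩ := hZ
  have hmix : w ∈ mix H A Z := by
    refine mem_mix (πZ := πZ) hS b α hb (Q := q ^ s) (by omega) i ?_ 1 _ ?_
    · intro t ρ v hv0 hv hc
      obtain ⟨l, -, hl⟩ := hgood χ hχ hrank ρ (hχe ρ v hv0 hv) t i hc
      exact ⟨l, hl⟩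
    · rw [op, pow_one, LinearMap.sub_apply, LinearMap.smul_apply, Module.End.one_apply, sub_eq_zero]
      exact hw
  exact ⟨act_proj_mix hdual hN hmix, act_proj_mix hdual.symm hN' hmix⟩

end Pool.Agent.Y1.CT
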