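import Mathlib
import Pool.Agent.Y1.CT.Defs
import Pool.Agent.Y1.CT.Kun
import Pool.Agent.Y1.KN.All

/-!
# Properties of abelian varieties with almost all slope types of CM fields
-/

set_option autoImplicit false
set_option linter.unusedSectionVars false
set_option linter.unusedVariables false

open CategoryTheory AlgebraicGeometry

universe u v w

namespace Pool.Agent.Y1.CT

open Polynomial NumberField Module Pool.Agent.H204R3.CM Pool.Agent.H977R3.CM Pool.Agent.TH170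
  Pool.Agent.TH170.FW Pool.Agent.Y1.KN

/-- The number `1` is independent of all fields. -/
theorem independent_one {I : Type} (K : I → Type) [∀ i, Field (K i)] : Independent K 1 :=
  ⟨one_ne_zero, fun i ψ => ⟨(starRingAut : ℂ ≃+* ℂ), 1, one_pos, by simp, fun x => rfl⟩⟩

/-- The bound for the families of slope types. -/
theorem ncard_of_noRel :
    ∃ C : ℝ, 0 ≤ C ∧ ∀ (p : ℕ) [Fact p.Prime] (ν : PadicAlgCl p ≃+* ℂ) (I : Type) [Fintype I]
      (K : I → Type) [∀ i, Field (K i)] [∀ i, NumberField (K i)] [∀ i, IsCMField (K i)]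
      (M : ∀ i, (K i →+* ℂ) → ℤ) (n g q : I → ℕ), PairwiseIndep K →
      (∀ i φ, M i (ComplexEmbedding.conjugate φ) = M i φ) → (∀ i, n i ≠ 0) →
      (∀ i φ, M i φ ∣ (n i : ℤ)) → (∀ i, finrank ℚ (K i) = 2 * g i) →
      (∀ i, q i ∣ g i ∧ (q i = 1 ∨ (q i).Prime)) →
      ∀ P : ℕ → (I → ℤ[X]) → Prop,
      (∀ (Q : ℕ) (f : I → ℤ[X]), 1 < Q → NoRel f Q (Independent K) → P Q f) →
      (({Φ : ∀ i, Set (K i →+* ℂ) | (∀ i, IsCMType (Φ i)) ∧
        ¬ ForAllOfType ν K M P Φ}.ncard : ℕ) : ℝ) ≤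
        2 ^ (∑ i, g i) * ∑ i, C * (n i : ℝ) ^ 2 * rate (K i) (g i) (q i) := by
  obtain ⟨C, hC0, hC⟩ := families_holds
  refine ⟨C, hC0, ?_⟩
  intro p _ ν I _ K _ _ _ M n g q hind hM hn hMn hg hq P hP
  refine hC I K M n g q hM hn hMn hg hq (ForAllOfType ν K M P) fun Φ hΦ hnd => ?_
  intro a π f ha hπ hf
  refine hP (p ^ a) f (Nat.one_lt_pow ha.ne' (Fact.out : p.Prime).one_lt)
    ⟨fun i => (hf i).1, independent_one K, fun s hs ρ hρ => ?_⟩
  exact exactPair_types hind hM hΦ hnd hπ f hf s hs ρ hρ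

end Pool.Agent.Y1.CT
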