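import Mathlib
import Pool.Agent.Y1.CT.Defs
import Pool.Agent.Y154.BQ.Defs
import Pool.Agent.Y159.Par.Parshin
import Pool.Agent.Y122.NCP.Defs
import Pool.Agent.TH44.SS.Times

/-!
# More properties of products with abelian varieties
-/

set_option autoImplicit false

open CategoryTheory AlgebraicGeometry

universe u v w

namespace Pool.Agent.Y1.CT

open Polynomial Pool.Agent.H914 Pool.Agent.H914.VarClass Pool.Agent.H914.VarClass.Obj
  Pool.Agent.W492.BB Pool.Agent.W484.CK

/-- `PairingTimes K q f`: the following holds for the Chow groups `C` with rational coefficients of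
all classes `𝒱` of varieties over fields `k` (finite, in the intended use), every Weil cohomology
theory `H` with coefficients in an algebraically closed field `F` of characteristic zero and all
`A`, `Z` as in `IsSituation`, where the Frobenius endomorphism `πA × πZ` of `A × Z` acts on its Chow
groups in the usual way: the Kunneth formula holds for the Chow groups of `A × Z`; rational and
numerical equivalence coincide on `A × Z` if and only if they coincide on `Z`; and for every `n` the
pairing `CH^n(A × Z)_ℝ × CH^(dim A + dim Z - n)(A × Z)_ℝ → ℝ` is perfect if and only if the pairings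
`CH^m(Z)_ℝ × CH^(dim Z - m)(Z)_ℝ → ℝ` with `n - dim A ≤ m ≤ n` are perfect. -/
def PairingTimes {I : Type} (K : I → Type) [∀ i, Field (K i)] (q : ℕ) (f : I → ℤ[X]) : Prop :=
  ∀ (k : Type) [Field k] (𝒱 : VarClass k) (C : TheoryData.{0, 0, 0} 𝒱 ℚ) [IsChow C]
    (F : Type) [Field F] [IsAlgClosed F] [CharZero F] (H : WeilTheoryData.{0, 0, 0} C F)
    [IsWeil H] (s : ℕ) (A Z : 𝒱.Obj) (πA : A ⟶ A) (πZ : Z ⟶ Z),
      IsSituation H K q s f πA πZ → IsFrobenius C (prodMap πA πZ) (q ^ s) →
        ChowKunneth C A Z ∧ (RatEqNum H (A.prod Z) ↔ RatEqNum H Z) ∧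
          Y154.BQ.PairingsReduce C A Z

/-- `KGroupsTimes K q f`: for the Chow groups `C` with rational coefficients of all classes `𝒱` of
varieties over fields `k` (finite, in the intended use), every Weil cohomology theory `H` with
coefficients in an algebraically closed field `F` of characteristic zero and all `A`, `Z` as in
`IsSituation` there are products `D j` of `deg j` divisor classes on `A`, finitely many, such
that the following holds for all `T` like the rational `K`-groups `K_m`, `m` arbitrary, for which
the Frobenius endomorphism of `A × Z` acts on `T^i(A × Z)` as multiplication by `q ^ (s i)`: one has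
`T^i(A × Z) = ⨁ D j × T^(i - deg j)(Z)` for all `i`, and `T(A × Z) = 0` if and only if
`T(Z) = 0`. -/
def KGroupsTimes {I : Type} (K : I → Type) [∀ i, Field (K i)] (q : ℕ) (f : I → ℤ[X]) : Prop :=
  ∀ (k : Type) [Field k] (𝒱 : VarClass k) (C : TheoryData.{0, 0, 0} 𝒱 ℚ) [IsChow C]
    (F : Type) [Field F] [IsAlgClosed F] [CharZero F] (H : WeilTheoryData.{0, 0, 0} C F)
    [IsWeil H] (s : ℕ) (A Z : 𝒱.Obj) (πA : A ⟶ A) (πZ : Z ⟶ Z),
      IsSituation H K q s f πA πZ →
        ∃ (J : Type) (_ : Fintype J) (deg : J → ℕ) (D : J → C.A A),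
          (∀ j, DivisorProduct C (deg j) (D j)) ∧ ∀ T : MotivicData C,
            Y159.Par.IsRationalKGroup T →
            ActsAsPower T (prodMap πA πZ) (q ^ s) → HasKunneth T A Z deg D ∧
              (Y159.Par.Parshin T (A.prod Z) ↔ Y159.Par.Parshin T Z)

/-- `NCKGroupsTimes K q f`: in the same situation there are products `D j` of `deg j` divisor classes
on `A`, finitely many, such that for the rational `K`-groups `T n = K_n`, `n ≥ 0`, and all direct
summands `(Z, e)` of the noncommutative motive of `Z`: the Kunneth formula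
`K_n(A × Z, 1 × e)_ℚ = ⨁ D j × K_n(Z, e)_ℚ` holds for all `n ≥ 0`, and the noncommutative
conjecture of Parshin holds for `(A × Z, 1 × e)` if and only if it holds for `(Z, e)`. -/
def NCKGroupsTimes {I : Type} (K : I → Type) [∀ i, Field (K i)] (q : ℕ) (f : I → ℤ[X]) : Prop :=
  ∀ (k : Type) [Field k] (𝒱 : VarClass k) (C : TheoryData.{0, 0, 0} 𝒱 ℚ) [IsChow C],
    IsoInvariant C → ∀ (F : Type) [Field F] [IsAlgClosed F] [CharZero F]
    (H : WeilTheoryData.{0, 0, 0} C F) [IsWeil H] (s : ℕ) (A Z : 𝒱.Obj) (πA : A ⟶ A)
    (πZ : Z ⟶ Z), IsSituation H K q s f πA πZ →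
      ∃ (J : Type) (_ : Fintype J) (deg : J → ℕ) (D : J → C.A A),
        (∀ j, DivisorProduct C (deg j) (D j)) ∧ ∀ T : ℕ → MotivicData C,
          Y122.NCP.IsKTheory T (prodMap πA πZ) (q ^ s) → ∀ e : C.A (Z.prod Z), IsIdempotent C e →
            (∀ n, (T n).KunnethFor A e D) ∧
              (Y122.NCP.NCParshin T (relative C A e) ↔ Y122.NCP.NCParshin T e)

open TensorProduct Module

/-- The eigenvalues of the endomorphism `G` and all their conjugates over `ℚ` are independent of the
fields `K i`. -/
def HasIndependentEigenvalues {H : Type} [AddCommGroup H] [Module ℂ H] {I : Type} (K : I → Type)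
    [∀ i, Field (K i)] (G : H →ₗ[ℂ] H) : Prop :=
  ∃ χ : ℚ[X], χ ≠ 0 ∧ (∀ ρ, Module.End.HasEigenvalue G ρ → aeval ρ χ = 0) ∧
    ∀ ρ : ℂ, aeval ρ χ = 0 → Independent K ρ

/-- Let `A` be an abelian variety over the field with `Q = q ^ s` elements, isogenous to a product
of powers of abelian varieties coming from the field with `q` elements, whose characteristic
polynomials of Frobenius are the `f i` (`F` is the Frobenius endomorphism relative to the field with
`q` elements of the first cohomology `V`), and let `U` be any variety over the field with `Q`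
elements, with the cohomology (with compact supports) `H m` of degree `m`, on which Frobenius acts
as `G m`; the eigenvalues and all their conjugates are independent of the fields `K i`. Then:
for all `i` the eigenvalue `Q ^ i` of Frobenius on the cohomology of degree `2 i` of `A × U` is
semisimple, if and only if this is true for `U`. -/
def SemisimpleTimes {I : Type} (K : I → Type) [∀ i, Field (K i)] (q : ℕ) (f : I → ℤ[X]) : Prop :=
  ∀ (V : Type) [AddCommGroup V] [Module ℂ V] [FiniteDimensional ℂ V] (F : V →ₗ[ℂ] V),
    TH44.SS.IsFrob f F → ∀ s : ℕ, 0 < s →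
    ∀ (H : ℕ → Type) [∀ m, AddCommGroup (H m)] [∀ m, Module ℂ (H m)]
      [∀ m, FiniteDimensional ℂ (H m)] (G : ∀ m, H m →ₗ[ℂ] H m),
      (∀ m, HasIndependentEigenvalues K (G m)) →
      (TH44.SS.SemiTate (TH44.SS.total (F ^ s) G) ((q : ℂ) ^ s) ↔
        TH44.SS.SemiTate G ((q : ℂ) ^ s))

end Pool.Agent.Y1.CT
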