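import Mathlib
import Pool.Agent.Y1.CT.Defs

/-!
# The Chow groups and motivic theories of products: the properties
-/

set_option autoImplicit false

open CategoryTheory AlgebraicGeometry

universe u v w

namespace Pool.Agent.Y1.CT

open Polynomial Pool.Agent.H914 Pool.Agent.H914.VarClass Pool.Agent.H914.VarClass.Obj
  Pool.Agent.W492.BB Pool.Agent.W484.CK

/-- `ChowTimes K q f`: the following holds for the Chow groups `C` with rational coefficients of
all classes `𝒱` of varieties over fields `k` (finite, in the intended use), every Weil cohomology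
theory `H` with coefficients in an algebraically closed field `F` of characteristic zero and all
`A`, `Z` as in `IsSituation`, where the Frobenius endomorphism `πA × πZ` of `A × Z` acts on its Chow
groups in the usual way: the Kunneth formula holds for the Chow groups of `A × Z`, and rational and
numerical equivalence coincide on `A × Z` if and only if they coincide on `Z`; similarly for
rational and homological equivalence. -/
def ChowTimes {I : Type} (K : I → Type) [∀ i, Field (K i)] (q : ℕ) (f : I → ℤ[X]) : Prop :=
  ∀ (k : Type) [Field k] (𝒱 : VarClass k) (C : TheoryData.{0, 0, 0} 𝒱 ℚ) [IsChow C]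
    (F : Type) [Field F] [IsAlgClosed F] [CharZero F] (H : WeilTheoryData.{0, 0, 0} C F)
    [IsWeil H] (s : ℕ) (A Z : 𝒱.Obj) (πA : A ⟶ A) (πZ : Z ⟶ Z),
      IsSituation H K q s f πA πZ → IsFrobenius C (prodMap πA πZ) (q ^ s) →
        ChowKunneth C A Z ∧ (RatEqNum H (A.prod Z) ↔ RatEqNum H Z) ∧
          (RatEqHom H (A.prod Z) ↔ RatEqHom H Z)

/-- `MotivicTimes K q f`: for the Chow groups `C` with rational coefficients of all classes `𝒱` of
varieties over fields `k` (finite, in the intended use), every Weil cohomology theory `H` with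
coefficients in an algebraically closed field `F` of characteristic zero and all `A`, `Z` as in
`IsSituation` there are products `D j` of `deg j` divisor classes on `A`, finitely many, such
that the following holds for all theories `T` with rational coefficients on which correspondences
act and such that the Frobenius endomorphism of `A × Z` acts on `T^i(A × Z)` as multiplication by
`q ^ (s i)`, for instance the `K`-groups `K_m` with their Adams decompositions, for every `m`: the
Kunneth formula `T^i(A × Z) = ⨁ D j × T^(i - deg j)(Z)` holds, and `T^i(A × Z) = 0` for all `i ≤ n`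
if and only if `T^i(Z) = 0` for all `i ≤ n`. -/
def MotivicTimes {I : Type} (K : I → Type) [∀ i, Field (K i)] (q : ℕ) (f : I → ℤ[X]) : Prop :=
  ∀ (k : Type) [Field k] (𝒱 : VarClass k) (C : TheoryData.{0, 0, 0} 𝒱 ℚ) [IsChow C]
    (F : Type) [Field F] [IsAlgClosed F] [CharZero F] (H : WeilTheoryData.{0, 0, 0} C F)
    [IsWeil H] (s : ℕ) (A Z : 𝒱.Obj) (πA : A ⟶ A) (πZ : Z ⟶ Z),
      IsSituation H K q s f πA πZ →
        ∃ (J : Type) (_ : Fintype J) (deg : J → ℕ) (D : J → C.A A),
          (∀ j, DivisorProduct C (deg j) (D j)) ∧ ∀ T : MotivicData C, IsMotivic T →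
            ActsAsPower T (prodMap πA πZ) (q ^ s) → HasKunneth T A Z deg D ∧
              ∀ n : ℤ, T.Vanishes (A.prod Z) n ↔ T.Vanishes Z n

/-- `NCTimes K q f`: for the Chow groups `C` with rational coefficients of all classes `𝒱` of
varieties over fields `k` (finite, in the intended use), every Weil cohomology theory `H` with
coefficients in an algebraically closed field `F` of characteristic zero and all `A`, `Z` as in
`IsSituation` there are products `D j` of `deg j` divisor classes on `A`, finitely many, such that
the following holds for all theories `T` with rational coefficients on which correspondences act,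
which are exhausted by the `T^i`, and such that the Frobenius endomorphism of `A × Z` acts on
`T^i(A × Z)` as multiplication by `q ^ (s i)`, for instance the `K`-groups `K_n` with their Adams
decompositions, for every `n`, and all direct summands `(Z, e)` of the noncommutative motive of
`Z`: the Kunneth formula `T(A × Z, 1 × e) = ⨁ D j × T(Z, e)` holds, and `T(A × Z, 1 × e) = 0` if
and only if `T(Z, e) = 0`. -/
def NCTimes {I : Type} (K : I → Type) [∀ i, Field (K i)] (q : ℕ) (f : I → ℤ[X]) : Prop :=
  ∀ (k : Type) [Field k] (𝒱 : VarClass k) (C : TheoryData.{0, 0, 0} 𝒱 ℚ) [IsChow C],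
    IsoInvariant C → ∀ (F : Type) [Field F] [IsAlgClosed F] [CharZero F]
    (H : WeilTheoryData.{0, 0, 0} C F) [IsWeil H] (s : ℕ) (A Z : 𝒱.Obj) (πA : A ⟶ A)
    (πZ : Z ⟶ Z), IsSituation H K q s f πA πZ →
      ∃ (J : Type) (_ : Fintype J) (deg : J → ℕ) (D : J → C.A A),
        (∀ j, DivisorProduct C (deg j) (D j)) ∧ ∀ T : MotivicData C, IsMotivic T →
          T.IsExhausted → ActsAsPower T (prodMap πA πZ) (q ^ s) →
            ∀ e : C.A (Z.prod Z), IsIdempotent C e →
              T.KunnethFor A e D ∧ (T.Trivial (relative C A e) ↔ T.Trivial e)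

/-- `NCNumTimes K q f`: in the same situation, where `πA × πZ` acts on the Chow groups of `A × Z` in
the usual way, there are products `D j` of `deg j` divisor classes on `A`, finitely many, such that
for all direct summands `(Z, e)` of the noncommutative motive of `Z`: the Kunneth formula
`K_0(A × Z, 1 × e)_ℚ = ⨁ D j × K_0(Z, e)_ℚ` holds, the same for the kernels of the Euler
pairings, and the Euler pairing of `K_0(A × Z, 1 × e)_ℚ` is nondegenerate if and only if the
one of `K_0(Z, e)_ℚ` is. -/
def NCNumTimes {I : Type} (K : I → Type) [∀ i, Field (K i)] (q : ℕ) (f : I → ℤ[X]) : Prop :=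
  ∀ (k : Type) [Field k] (𝒱 : VarClass k) (C : TheoryData.{0, 0, 0} 𝒱 ℚ) [IsChow C],
    IsoInvariant C → ∀ (F : Type) [Field F] [IsAlgClosed F] [CharZero F]
    (H : WeilTheoryData.{0, 0, 0} C F) [IsWeil H] (s : ℕ) (A Z : 𝒱.Obj) (πA : A ⟶ A)
    (πZ : Z ⟶ Z), IsSituation H K q s f πA πZ → IsFrobenius C (prodMap πA πZ) (q ^ s) →
      ∃ (J : Type) (_ : Fintype J) (deg : J → ℕ) (D : J → C.A A),
        (∀ j, DivisorProduct C (deg j) (D j)) ∧ ∀ e : C.A (Z.prod Z), IsIdempotent C e →
          KZeroKunneth H A e D ∧ (IsNondegenerate H (relative C A e) ↔ IsNondegenerate H e)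

/-- `NCHomTimes K q f`: for the Chow groups `C` with rational coefficients of all classes `𝒱` of
varieties over fields `k` (finite, in the intended use), every Weil cohomology theory `H` with
coefficients in an algebraically closed field `F` of characteristic zero and all `A`, `Z` as in
`IsOpenSituation` there are products `D j` of `deg j` divisor classes on `A`, finitely many, such
that the following holds for all direct summands `(Z, e)` of the noncommutative motive of `Z`: the
Kunneth formula `K_0(A × Z, 1 × e)_ℚ = ⨁ D j × K_0(Z, e)_ℚ` holds modulo homological equivalence,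
the same for the kernels of the Euler pairings, and homological and numerical equivalence coincide
on `K_0(A × Z, 1 × e)_ℚ` if and only if they coincide on `K_0(Z, e)_ℚ`. -/
def NCHomTimes {I : Type} (K : I → Type) [∀ i, Field (K i)] (q : ℕ) (f : I → ℤ[X]) : Prop :=
  ∀ (k : Type) [Field k] (𝒱 : VarClass k) (C : TheoryData.{0, 0, 0} 𝒱 ℚ) [IsChow C],
    IsoInvariant C → ∀ (F : Type) [Field F] [IsAlgClosed F] [CharZero F]
    (H : WeilTheoryData.{0, 0, 0} C F) [IsWeil H] (s : ℕ) (A Z : 𝒱.Obj) (πA : A ⟶ A)
    (πZ : Z ⟶ Z), IsOpenSituation H K q s f πA πZ →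
      ∃ (J : Type) (_ : Fintype J) (deg : J → ℕ) (D : J → C.A A),
        (∀ j, DivisorProduct C (deg j) (D j)) ∧ ∀ e : C.A (Z.prod Z), IsIdempotent C e →
          HomKunneth H A e D ∧ (HomEqNum H (relative C A e) ↔ HomEqNum H e)

/-- `NCTateTimes K q f`: in the same situation there are products `D j` of `deg j` divisor classes on
`A`, finitely many, such that the following holds for all direct summands `(Z, e)` of the
noncommutative motive of `Z`: the Kunneth formula for the Frobenius invariants in the cohomology of
`(A × Z, 1 × e)` holds, and the Tate conjecture holds for `(A × Z, 1 × e)` if and only if it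
holds for `(Z, e)`. -/
def NCTateTimes {I : Type} (K : I → Type) [∀ i, Field (K i)] (q : ℕ) (f : I → ℤ[X]) : Prop :=
  ∀ (k : Type) [Field k] (𝒱 : VarClass k) (C : TheoryData.{0, 0, 0} 𝒱 ℚ) [IsChow C],
    IsoInvariant C → ∀ (F : Type) [Field F] [IsAlgClosed F] [CharZero F]
    (H : WeilTheoryData.{0, 0, 0} C F) [IsWeil H] (s : ℕ) (A Z : 𝒱.Obj) (πA : A ⟶ A)
    (πZ : Z ⟶ Z), IsOpenSituation H K q s f πA πZ →
      ∃ (J : Type) (_ : Fintype J) (deg : J → ℕ) (D : J → C.A A),
        (∀ j, DivisorProduct C (deg j) (D j)) ∧ ∀ e : C.A (Z.prod Z), IsIdempotent C e →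
          TateKunneth H πA πZ (q ^ s) e D ∧
            (NCTateConjecture H (prodMap πA πZ) (q ^ s) (relative C A e) ↔
              NCTateConjecture H πZ (q ^ s) e)

end Pool.Agent.Y1.CT
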