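import Mathlib
import Pool.Agent.Y1.CT.Props
import Pool.Agent.Y1.CT.Kun
import Pool.Agent.W484.CK.Main
import Pool.Agent.W484.CK.NCHomMain
import Pool.Agent.W484.CK.NCTateMain
import Pool.Agent.W484.CK.NCMain

/-!
# The Chow groups and motivic theories of products: the proofs
-/

set_option autoImplicit false
set_option linter.unusedSectionVars false
set_option linter.unusedVariables false

open CategoryTheory AlgebraicGeometry

universe u v w

namespace Pool.Agent.Y1.CT

open Module Polynomial Pool.Agent.H914 Pool.Agent.H914.VarClass Pool.Agent.H914.VarClass.Obj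
  Pool.Agent.W492.BB Pool.Agent.W550.Corr Pool.Agent.W484.CK

variable {I : Type} {K : I → Type} [∀ i, Field (K i)] {q : ℕ} (hq : 1 < q) {f : I → ℤ[X]}
  (hR : NoRel f q (Independent K))

include hq hR

theorem chowTimes : ChowTimes K q f := by
  intro k _ 𝒱 C _ F _ _ _ H _ s A Z πA πZ hsit hF
  obtain ⟨J, hJ, deg, D, E', hdual, hD, hK⟩ := kunneth_main hq hR
    (isStandard_bridge hsit.standard) hsit.pos (isAbelian_bridge hsit.abelian)
    (πZ := πZ) hsit.independent (nilpotence_bridge hsit.nilpotence)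
  have h1 : W484.CH.HasKunneth (W484.CH.chowData C) A Z deg D := W484.CH.hasKunneth_of hdual
    W484.CH.chowData_isCorrTheory (hK (W484.CH.chowData C) W484.CH.chowData_isCorrTheory
      (W484.CH.chowData_actsAsPower (isFrobenius_bridge hF)))
  refine ⟨⟨J, hJ, deg, D, hD, fun i y hy => ?_⟩, W484.CH.ratEqNum_iff hdual h1,
    W484.CH.ratEqHom_iff hdual h1⟩
  obtain ⟨z, ⟨hz1, hz2⟩, hz3⟩ := h1 i y hy
  have h2 : ∀ z' : J → C.A Z, ∑ j, times C (D j) (z' j) =
      ∑ j, (W484.CH.chowData C).act (W484.CH.extBy C Z (D j)) (z' j) := fun z' =>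
    Finset.sum_congr rfl fun j _ => (W484.CH.act_extBy C (D j) (z' j)).symm
  refine ⟨z, ⟨hz1, ?_⟩, fun z' hz' => hz3 z' ⟨hz'.1, ?_⟩⟩
  · rw [h2 z]
    exact hz2
  · rw [← h2 z']
    exact hz'.2

theorem motivicTimes : MotivicTimes K q f := by
  intro k _ 𝒱 C _ F _ _ _ H _ s A Z πA πZ hsit
  obtain ⟨J, hJ, deg, D, E', hdual, hD, hK⟩ := kunneth_main hq hR
    (isStandard_bridge hsit.standard) hsit.pos (isAbelian_bridge hsit.abelian)
    (πZ := πZ) hsit.independent (nilpotence_bridge hsit.nilpotence)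
  refine ⟨J, hJ, deg, D, hD, fun T hT hπ => ?_⟩
  have h1 : W484.CH.HasKunneth (toCorr T) A Z deg D := W484.CH.hasKunneth_of hdual
    (toCorr_isCorrTheory hT) (hK (toCorr T) (toCorr_isCorrTheory hT) (toCorr_actsAsPower hπ))
  refine ⟨h1, fun n => ?_⟩
  rw [vanishes_iff, vanishes_iff]
  exact W484.CH.vanish_iff (toCorr_isCorrTheory hT) h1 n

theorem ncTimes : NCTimes K q f := by
  intro k _ 𝒱 C _ hI F _ _ _ H _ s A Z πA πZ hsit
  obtain ⟨J, hJ, deg, D, E', hne, hdual, hD, hE, hK⟩ := kunneth_both hq hR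
    (isStandard_bridge hsit.standard) hsit.pos (isAbelian_bridge hsit.abelian)
    (πZ := πZ) hsit.independent (nilpotence_bridge hsit.nilpotence)
  refine ⟨J, hJ, deg, D, hD, fun T hT hex hπ e _ => ?_⟩
  have hT' := fun i m hm => (hK (toCorr T) (toCorr_isCorrTheory hT)
    (toCorr_actsAsPower hπ) i m hm).1
  exact ⟨kunnethFor_of hI hT hdual hex hT' e, trivial_iff hI hT hdual hex hT' e⟩

theorem ncNumTimes : NCNumTimes K q f := by
  intro k _ 𝒱 C _ hI F _ _ _ H _ s A Z πA πZ hsit hF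
  obtain ⟨J, hJ, deg, D, E', hne, hdual, hD, hE, hK⟩ := kunneth_both hq hR
    (isStandard_bridge hsit.standard) hsit.pos (isAbelian_bridge hsit.abelian)
    (πZ := πZ) hsit.independent (nilpotence_bridge hsit.nilpotence)
  have hT' := fun i m hm => (hK (toCorr (chowMot C)) (toCorr_isCorrTheory chowMot_isMotivic)
    (toCorr_actsAsPower (chowMot_actsAsPower hF)) i m hm).1
  exact ⟨J, hJ, deg, D, hD, fun e _ => ⟨kzeroKunneth_of hdual hI hT' e,
    nondegenerate_iff hdual hI hT' e⟩⟩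

theorem ncHomTimes : NCHomTimes K q f := by
  intro k _ 𝒱 C _ hI F _ _ _ H _ s A Z πA πZ hsit
  obtain ⟨J, hJ, deg, D, E', hne, hdual, hD, hE, hK⟩ := kunneth_eigen hq hR
    (isStandard_bridge hsit.standard) hsit.pos (isAbelian_bridge hsit.abelian)
    (πZ := πZ) hsit.independent
  have hK' := fun i w hw => (hK i w hw).1
  exact ⟨J, hJ, deg, D, hD, fun e he => ⟨homKunneth_of hdual hsit.frobenius hK' hI he,
    homEqNum_iff hdual hsit.frobenius hK' hI he⟩⟩

theorem ncTateTimes : NCTateTimes K q f := by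
  intro k _ 𝒱 C _ hI F _ _ _ H _ s A Z πA πZ hsit
  obtain ⟨J, hJ, deg, D, E', hne, hdual, hD, hE, hK⟩ := kunneth_eigen hq hR
    (isStandard_bridge hsit.standard) hsit.pos (isAbelian_bridge hsit.abelian)
    (πZ := πZ) hsit.independent
  have hK' := fun i w hw => (hK i w hw).1
  have hQ : q ^ s ≠ 0 := pow_ne_zero _ (by omega)
  have hπA := isFrobenius_bridge hsit.abelian.frobenius
  exact ⟨J, hJ, deg, D, hD, fun e he => ⟨tateKunneth_of hI hdual hQ hπA hK' e,
    ncTate_iff hI hdual hQ hπA hK' he⟩⟩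

end Pool.Agent.Y1.CT
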