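import Mathlib
import Pool.Agent.Y1.CT.MoreDefs
import Pool.Agent.Y1.CT.Thms
import Pool.Agent.Y154.BQ.Fin
import Pool.Agent.Y122.NCP.Main

/-!
# More properties of products with abelian varieties: the proofs
-/

set_option autoImplicit false
set_option linter.unusedSectionVars false
set_option linter.unusedVariables false

open CategoryTheory AlgebraicGeometry

universe u v w

namespace Pool.Agent.Y1.CT

open Module Polynomial Pool.Agent.H914 Pool.Agent.H914.VarClass Pool.Agent.H914.VarClass.Obj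
  Pool.Agent.W492.BB Pool.Agent.W550.Corr Pool.Agent.W484.CK Pool.Agent.W484.AA
  Pool.Agent.W484.TB

variable {I : Type} {K : I → Type} [∀ i, Field (K i)] {q : ℕ} (hq : 1 < q) {f : I → ℤ[X]}
  (hR : NoRel f q (Independent K))

include hq hR

theorem pairingTimes : PairingTimes K q f := by
  intro k _ 𝒱 C _ F _ _ _ H _ s A Z πA πZ hsit hF
  have h0 := chowTimes hq hR k 𝒱 C F H s A Z πA πZ hsit hF
  refine ⟨h0.1, h0.2.1, ?_⟩
  obtain ⟨J, hJ, deg, D, E', hdual, hD, hK⟩ := kunneth_main hq hR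
    (isStandard_bridge hsit.standard) hsit.pos (isAbelian_bridge hsit.abelian)
    (πZ := πZ) hsit.independent (nilpotence_bridge hsit.nilpotence)
  have h1 : W484.CH.HasKunneth (W484.CH.chowData C) A Z deg D := W484.CH.hasKunneth_of hdual
    W484.CH.chowData_isCorrTheory (hK (W484.CH.chowData C) W484.CH.chowData_isCorrTheory
      (W484.CH.chowData_actsAsPower (isFrobenius_bridge hF)))
  intro n
  exact Y154.BQ.perfectIn_prod_iff' (isStandard_bridge hsit.standard) hdual h1 hD n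

theorem kGroupsTimes : KGroupsTimes K q f := by
  intro k _ 𝒱 C _ F _ _ _ H _ s A Z πA πZ hsit
  obtain ⟨J, hJ, deg, D, hD, hT⟩ := motivicTimes hq hR k 𝒱 C F H s A Z πA πZ hsit
  refine ⟨J, hJ, deg, D, hD, fun T hK hπ => ?_⟩
  obtain ⟨h1, h2⟩ := hT T hK.motivic hπ
  refine ⟨h1, ?_⟩
  rw [Y159.Par.parshin_iff hK, Y159.Par.parshin_iff hK]
  exact forall_congr' h2

theorem ncKGroupsTimes : NCKGroupsTimes K q f := by
  intro k _ 𝒱 C _ hI F _ _ _ H _ s A Z πA πZ hsit
  obtain ⟨J, hJ, deg, D, hD, hT⟩ := ncTimes hq hR k 𝒱 C hI F H s A Z πA πZ hsit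
  refine ⟨J, hJ, deg, D, hD, fun T hK e he => ⟨fun n => ?_, ?_⟩⟩
  · exact (hT (T n) (hK.motivic n) (hK.exhausted n) (hK.frobenius n) e he).1
  · refine forall_congr' fun n => forall_congr' fun _ => ?_
    exact (hT (T n) (hK.motivic n) (hK.exhausted n) (hK.frobenius n) e he).2

theorem semisimpleTimes : SemisimpleTimes K q f := by
  intro V _ _ _ F hF s hs H _ _ _ G hG
  have hQ : (q : ℂ) ^ s ≠ 0 := pow_ne_zero _ (by exact_mod_cast (by omega : q ≠ 0))
  constructor
  · intro h1 i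
    have h2 := (TH44.SS.semisimpleAt_total (F ^ s) G (2 * i) _).1 (h1 i) ⟨0, by omega⟩
    exact TH44.SS.semisimpleAt_zero (F ^ s) (G (2 * i)) _ h2
  · intro h1 i
    rw [TH44.SS.semisimpleAt_total]
    rintro ⟨n, hn⟩
    obtain ⟨χ, hχ, hχe, hrank⟩ := hG (2 * i - n)
    have h3 := semisimpleAt_product (F ^ s) _ (span_pow F hF s) ((q : ℂ) ^ s) hQ (G (2 * i - n))
      (fun ρ hρ => hR.pair s hs ρ (hrank ρ (hχe ρ hρ))) n (i : ℤ) (by
      rintro k rfl
      have hk : k ≤ i := by omega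
      have h4 := h1 (i - k)
      have h5 : ∀ m, m = 2 * (i - k) → SemisimpleAt (G m) (((q : ℂ) ^ s) ^ (i - k)) := by
        rintro _ rfl
        exact h4
      have h6 : ((q : ℂ) ^ s) ^ ((i : ℤ) - k) = ((q : ℂ) ^ s) ^ (i - k) := by
        rw [← Nat.cast_sub hk, zpow_natCast]
      rw [h6]
      exact h5 _ (by omega))
    rw [zpow_natCast] at h3
    exact h3

end Pool.Agent.Y1.CT
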