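import Mathlib
import Pool.Agent.W484.CK.Stm
import Pool.Agent.Y1.CT.IndepDefs

/-!
# Products of abelian varieties and independent varieties
-/

set_option autoImplicit false

open CategoryTheory AlgebraicGeometry

universe u v w

namespace Pool.Agent.Y1.CT

open Polynomial Pool.Agent.H914 Pool.Agent.H914.VarClass Pool.Agent.H914.VarClass.Obj
  Pool.Agent.W492.BB Pool.Agent.W484.CK

variable {k : Type u} [Field k] {𝒱 : VarClass k} {C : TheoryData.{u, v, 0} 𝒱 ℚ} {F : Type w}
  [Field F] (H : WeilTheoryData.{u, v, w} C F) {A Z : 𝒱.Obj}

/-- The eigenvalues of `π` on the cohomology of `Z` are roots of a nonzero rational polynomial all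
of whose complex roots are independent of the fields `K i`. -/
def AreIndependent [CharZero F] {I : Type} (K : I → Type) [∀ i, Field (K i)] (π : Z ⟶ Z) : Prop :=
  ∃ χ : ℚ[X], χ ≠ 0 ∧ (∀ (ρ : F) (v : H.A Z), v ≠ 0 → H.up π v = ρ • v → aeval ρ χ = 0) ∧
    ∀ ρ : ℂ, aeval ρ χ = 0 → Independent K ρ

/-- `πA` is the Frobenius endomorphism of an abelian variety `A` over the field with `q ^ s`
elements, isogenous to a product of powers of abelian varieties coming from the field with `q`
elements with characteristic polynomials `f i`; `Z` is any variety over the field with `q ^ s`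
elements, such that the eigenvalues of its Frobenius endomorphism `πZ` on the cohomology and their
conjugates are independent of the fields `K i`, and such that homologically trivial
self-correspondences of `A × Z` of degree zero are nilpotent. -/
structure IsCase [CharZero F] {I : Type} (K : I → Type) [∀ i, Field (K i)] (q s : ℕ)
    (f : I → ℤ[X]) (πA : A ⟶ A) (πZ : Z ⟶ Z) : Prop where
  standard : IsStandard H
  pos : 0 < s
  abelian : IsAbelian H πA q s f
  independent : AreIndependent H K πZ
  nilpotence : Nilpotence H (A.prod Z)

end Pool.Agent.Y1.CT
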