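import Mathlib
import Pool.Agent.Y1.CT.SitDefs
import Pool.Agent.Y122.NCP.Defs

/-!
# The noncommutative conjecture of Parshin for products
-/

set_option autoImplicit false

open CategoryTheory AlgebraicGeometry

universe u v w

namespace Pool.Agent.Y1.CT

open Polynomial Pool.Agent.H914 Pool.Agent.H914.VarClass Pool.Agent.H914.VarClass.Obj
  Pool.Agent.W492.BB Pool.Agent.W484.CK Pool.Agent.Y122.NCP

/-- `NCParshinTimes K q f`: the following holds for the Chow groups `C` with rational coefficients of
all classes `𝒱` of varieties over fields `k` (finite, in the intended use), every Weil cohomology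
theory `H` with coefficients in an algebraically closed field `F` of characteristic zero and all
`A`, `Z` as in `IsCase`. There are products `D j` of `deg j` divisor classes on `A`, finitely many,
such that for the rational `K`-groups `T n = K_n`, `n ≥ 0`, and all direct summands `(Z, e)` of the
noncommutative motive of `Z`: the Kunneth formula `K_n(A × Z, 1 × e)_ℚ = ⨁ D j × K_n(Z, e)_ℚ` holds
for all `n ≥ 0`, and the noncommutative conjecture of Parshin holds for `(A × Z, 1 × e)` if and only
if it holds for `(Z, e)`. -/
def NCParshinTimes {I : Type} (K : I → Type) [∀ i, Field (K i)] (q : ℕ) (f : I → ℤ[X]) : Prop :=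
  ∀ (k : Type) [Field k] (𝒱 : VarClass k) (C : TheoryData.{0, 0, 0} 𝒱 ℚ) [IsChow C],
    IsoInvariant C → ∀ (F : Type) [Field F] [IsAlgClosed F] [CharZero F]
    (H : WeilTheoryData.{0, 0, 0} C F) [IsWeil H] (s : ℕ) (A Z : 𝒱.Obj) (πA : A ⟶ A)
    (πZ : Z ⟶ Z), IsCase H K q s f πA πZ →
      ∃ (J : Type) (_ : Fintype J) (deg : J → ℕ) (D : J → C.A A),
        (∀ j, DivisorProduct C (deg j) (D j)) ∧ ∀ T : ℕ → MotivicData C,
          IsKTheory T (prodMap πA πZ) (q ^ s) → ∀ e : C.A (Z.prod Z), IsIdempotent C e →
            (∀ n, (T n).KunnethFor A e D) ∧ (NCParshin T (relative C A e) ↔ NCParshin T e)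

end Pool.Agent.Y1.CT
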