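import Mathlib
import Pool.Agent.Y1.CT.SitDefs

/-!
# Perfectness of the intersection pairing
-/

set_option autoImplicit false

open CategoryTheory AlgebraicGeometry
open scoped TensorProduct

universe u v w

namespace Pool.Agent.Y1.CT

open Polynomial Pool.Agent.H914 Pool.Agent.H914.VarClass Pool.Agent.H914.VarClass.Obj
  Pool.Agent.W492.BB Pool.Agent.W484.CK

section

variable (V : Type v) [AddCommGroup V] [Module ℚ V]

/-- The real vector space `ℝ ⊗ V`. -/
def RealSpace : Type v := ℝ ⊗[ℚ] V

noncomputable instance instAddCommGroupRealSpace : AddCommGroup (RealSpace V) :=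
  (TensorProduct.addCommGroup : AddCommGroup (ℝ ⊗[ℚ] V))

noncomputable instance instModuleRealSpace : Module ℝ (RealSpace V) :=
  (TensorProduct.leftModule : Module ℝ (ℝ ⊗[ℚ] V))

variable {V}

/-- The element `a ⊗ x` of `ℝ ⊗ V`. -/
noncomputable def tens (a : ℝ) (x : V) : RealSpace V := a ⊗ₜ x

end

/-- Let `d` be a relation between the elements of `V`, those of `W` and the rational numbers (the
graph of a bilinear form `β`). Then `PerfectForm d` means: the real vector spaces `ℝ ⊗ V` and
`ℝ ⊗ W` are finite-dimensional, and for a bilinear form `B` on them with `B(a ⊗ x, b ⊗ y) = a b m`,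
where `m` is a rational number with `d x y m` (that is, `m = β(x, y)`), the map
`ℝ ⊗ V → Hom(ℝ ⊗ W, ℝ)` is bijective. -/
def PerfectForm {V W : Type v} [AddCommGroup V] [Module ℚ V] [AddCommGroup W] [Module ℚ W]
    (d : V → W → ℚ → Prop) : Prop :=
  Module.Finite ℝ (RealSpace V) ∧ Module.Finite ℝ (RealSpace W) ∧
  ∃ B : RealSpace V →ₗ[ℝ] RealSpace W →ₗ[ℝ] ℝ, Function.Bijective B ∧
    ∀ (a b : ℝ) (x : V) (y : W), ∃ m : ℚ, d x y m ∧ B (tens a x) (tens b y) = a * b * m

section

variable {k : Type u} [Field k] {𝒱 : VarClass k} (C : TheoryData.{u, v, 0} 𝒱 ℚ)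

/-- The Chow group `CH^n(X)` with rational coefficients. -/
def CHn (X : 𝒱.Obj) (n : ℤ) : Type v := C.gr X n

noncomputable instance instAddCommGroupCHn (X : 𝒱.Obj) (n : ℤ) : AddCommGroup (CHn C X n) :=
  (C.gr X n).addCommGroup

noncomputable instance instModuleCHn (X : 𝒱.Obj) (n : ℤ) : Module ℚ (CHn C X n) :=
  (C.gr X n).module

/-- The class of an element of `CH^n(X)` in the Chow ring. -/
def CHn.cls {X : 𝒱.Obj} {n : ℤ} (z : CHn C X n) : C.A X := Subtype.val (p := (· ∈ C.gr X n)) z

/-- The zero-cycle `t` on `X` has degree `n`: the push-forward of `t × X` to `X` is `n` times the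
fundamental class of `X`. -/
def HasDegree {X : 𝒱.Obj} (t : C.A X) (n : ℚ) : Prop :=
  C.down (snd X X) (C.up (fst X X) t) = n • (1 : C.A X)

/-- The intersection pairing `CH^n(X)_ℝ × CH^(d-n)(X)_ℝ → ℝ`, `d = dim X`, is perfect: both spaces
are finite-dimensional, and the map `CH^n(X)_ℝ → Hom(CH^(d-n)(X)_ℝ, ℝ)` is bijective. Here
`CH^n(X)_ℝ` is the tensor product of `ℝ` with the group `CH^n(X)` with rational coefficients, and
the pairing is the bilinear form `B` with `B(a ⊗ z, b ⊗ w) = a b deg(z · w)`. -/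
def PerfectAt (X : 𝒱.Obj) (n : ℤ) : Prop :=
  PerfectForm (V := CHn C X n) (W := CHn C X (X.dim - n)) fun z w m =>
    HasDegree C (C.mul z.cls w.cls) m

end

/-- `PerfectTimes K q f`: the following holds for the Chow groups `C` with rational coefficients of
all classes `𝒱` of varieties over fields `k` (finite, in the intended use), every Weil cohomology
theory `H` with coefficients in an algebraically closed field `F` of characteristic zero and all
`A`, `Z` as in `IsCase`, where the Frobenius endomorphism `πA × πZ` of `A × Z` acts on its Chow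
groups in the usual way. The Kunneth formula holds for the Chow groups of `A × Z`, and for every `n`
the pairing `CH^n(A × Z)_ℝ × CH^(dim A + dim Z - n)(A × Z)_ℝ → ℝ` is perfect if and only if the
pairings `CH^m(Z)_ℝ × CH^(dim Z - m)(Z)_ℝ → ℝ` with `n - dim A ≤ m ≤ n` are perfect. -/
def PerfectPairingTimes {I : Type} (K : I → Type) [∀ i, Field (K i)] (q : ℕ) (f : I → ℤ[X]) :
    Prop :=
  ∀ (k : Type) [Field k] (𝒱 : VarClass k) (C : TheoryData.{0, 0, 0} 𝒱 ℚ) [IsChow C]
    (F : Type) [Field F] [IsAlgClosed F] [CharZero F] (H : WeilTheoryData.{0, 0, 0} C F)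
    [IsWeil H] (s : ℕ) (A Z : 𝒱.Obj) (πA : A ⟶ A) (πZ : Z ⟶ Z),
      IsCase H K q s f πA πZ → IsFrobenius C (prodMap πA πZ) (q ^ s) → ChowKunneth C A Z ∧
        ∀ n : ℤ, PerfectAt C (A.prod Z) n ↔ ∀ m : ℤ, n - A.dim ≤ m → m ≤ n → PerfectAt C Z m

end Pool.Agent.Y1.CT
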