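import Mathlib
import Pool.Agent.Y1.CT.IndepDefs
import Pool.Agent.TH170.GS.Defs

/-!
# Weil numbers with given slope types, one field at a time
-/

set_option autoImplicit false

namespace Pool.Agent.Y1.CT

open NumberField IntermediateField Polynomial Pool.Agent.TH170

/-- The number `π` is a Weil number for `p ^ a` that generates the CM field `K`. The slope of `π` at
the complex embedding `φ` of `K` is `(a + κ M φ) / 2` if `φ` belongs to the type `Φ`, and
`(a - κ M φ) / 2` otherwise, for a real number `κ ≠ 0`. -/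
structure HasType {p : ℕ} [Fact p.Prime] (ν : PadicAlgCl p ≃+* ℂ) (a : ℕ) {K : Type} [Field K]
    [NumberField K] [IsCMField K] (M : (K →+* ℂ) → ℤ) (Φ : Set (K →+* ℂ)) (π : K) : Prop where
  gen : ℚ⟮π⟯ = ⊤
  weil : π * IsCMField.complexConj K π = (p : K) ^ a
  slopes : ∃ κ : ℝ, κ ≠ 0 ∧ GS.HasSlopes ν M Φ a κ π

/-- A property `P q f` of a prime power `q` and polynomials `f i` holds for all Weil numbers `π i`
(for `q = p ^ a`, any `a > 0`) which generate the fields `K i` and have the slope types `Φ i`, with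
the weights `M i`, and all monic polynomials `f i` whose complex roots are conjugates of `π i`. -/
def ForAllTypes {p : ℕ} [Fact p.Prime] (ν : PadicAlgCl p ≃+* ℂ) {I : Type}
    (K : I → Type) [∀ i, Field (K i)] [∀ i, NumberField (K i)] [∀ i, IsCMField (K i)]
    (M : ∀ i, (K i →+* ℂ) → ℤ) (P : ℕ → (I → ℤ[X]) → Prop) (Φ : ∀ i, Set (K i →+* ℂ)) : Prop :=
  ∀ (a : ℕ) (π : ∀ i, K i) (f : I → ℤ[X]), 0 < a → (∀ i, HasType ν a (M i) (Φ i) (π i)) →
    (∀ i, IsPolyOf (π i) (f i)) → P (p ^ a) f

end Pool.Agent.Y1.CT
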