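import Mathlib
import Pool.Agent.Y1.CT.Main
import Pool.Agent.Y1.CT.More
import Pool.Agent.Y1.CT.TypeDefs
import Pool.Agent.Y1.CT.NCDefs
import Pool.Agent.Y1.CT.PairDefs

/-!
# The theorems for the definitions of `TypeDefs`, `SitDefs`, `NCDefs`, `PairDefs`
-/

set_option autoImplicit false
set_option linter.unusedSectionVars false
set_option linter.unusedVariables false

open CategoryTheory AlgebraicGeometry

universe u v w

namespace Pool.Agent.Y1.CT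

open Polynomial NumberField Module Pool.Agent.H204R3.CM Pool.Agent.H977R3.CM Pool.Agent.TH170
  Pool.Agent.TH170.FW Pool.Agent.Y1.KN Pool.Agent.H914 Pool.Agent.H914.VarClass
  Pool.Agent.H914.VarClass.Obj Pool.Agent.W492.BB Pool.Agent.W484.CK

theorem forAllTypes_of {p : ℕ} [Fact p.Prime] {ν : PadicAlgCl p ≃+* ℂ} {I : Type}
    {K : I → Type} [∀ i, Field (K i)] [∀ i, NumberField (K i)] [∀ i, IsCMField (K i)]
    {M : ∀ i, (K i →+* ℂ) → ℤ} {P : ℕ → (I → ℤ[X]) → Prop} {Φ : ∀ i, Set (K i →+* ℂ)}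
    (h : ForAllOfType ν K M P Φ) : ForAllTypes ν K M P Φ := fun a π f ha hπ hf =>
  h a π f ha ⟨fun i => (hπ i).gen, fun i => (hπ i).weil, fun i => (hπ i).slopes⟩ hf

theorem forAllOfType_of {p : ℕ} [Fact p.Prime] {ν : PadicAlgCl p ≃+* ℂ} {I : Type}
    {K : I → Type} [∀ i, Field (K i)] [∀ i, NumberField (K i)] [∀ i, IsCMField (K i)]
    {M : ∀ i, (K i →+* ℂ) → ℤ} {P : ℕ → (I → ℤ[X]) → Prop} {Φ : ∀ i, Set (K i →+* ℂ)}
    (h : ForAllTypes ν K M P Φ) : ForAllOfType ν K M P Φ := fun a π f ha hπ hf =>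
  h a π f ha (fun i => ⟨hπ.gen i, hπ.weil i, hπ.slopes i⟩) hf

theorem forAllTypes_iff {p : ℕ} [Fact p.Prime] {ν : PadicAlgCl p ≃+* ℂ} {I : Type}
    {K : I → Type} [∀ i, Field (K i)] [∀ i, NumberField (K i)] [∀ i, IsCMField (K i)]
    {M : ∀ i, (K i →+* ℂ) → ℤ} {P : ℕ → (I → ℤ[X]) → Prop} {Φ : ∀ i, Set (K i →+* ℂ)} :
    ForAllTypes ν K M P Φ ↔ ForAllOfType ν K M P Φ := ⟨forAllOfType_of, forAllTypes_of⟩

/-- The bound for the families of slope types. -/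
theorem ncard_of_noRel' :
    ∃ C : ℝ, 0 ≤ C ∧ ∀ (p : ℕ) [Fact p.Prime] (ν : PadicAlgCl p ≃+* ℂ) (I : Type) [Fintype I]
      (K : I → Type) [∀ i, Field (K i)] [∀ i, NumberField (K i)] [∀ i, IsCMField (K i)]
      (M : ∀ i, (K i →+* ℂ) → ℤ) (n g q : I → ℕ), PairwiseIndep K →
      (∀ i φ, M i (ComplexEmbedding.conjugate φ) = M i φ) → (∀ i, n i ≠ 0) →
      (∀ i φ, M i φ ∣ (n i : ℤ)) → (∀ i, finrank ℚ (K i) = 2 * g i) →
      (∀ i, q i ∣ g i ∧ (q i = 1 ∨ (q i).Prime)) →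
      ∀ P : ℕ → (I → ℤ[X]) → Prop,
      (∀ (Q : ℕ) (f : I → ℤ[X]), 1 < Q → NoRel f Q (Independent K) → P Q f) →
      (({Φ : ∀ i, Set (K i →+* ℂ) | (∀ i, IsCMType (Φ i)) ∧
        ¬ ForAllTypes ν K M P Φ}.ncard : ℕ) : ℝ) ≤
        2 ^ (∑ i, g i) * ∑ i, C * (n i : ℝ) ^ 2 * rate (K i) (g i) (q i) := by
  obtain ⟨C, hC0, hC⟩ := ncard_of_noRel
  refine ⟨C, hC0, ?_⟩
  intro p _ ν I _ K _ _ _ M n g q hind hM hn hMn hg hq P hP
  simp only [forAllTypes_iff]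
  exact hC p ν I K M n g q hind hM hn hMn hg hq P hP

section

variable {k : Type u} [Field k] {𝒱 : VarClass k} {C : TheoryData.{u, v, 0} 𝒱 ℚ} {F : Type w}
  [Field F] {H : WeilTheoryData.{u, v, w} C F} {A Z : 𝒱.Obj}

theorem isSituation_of [CharZero F] {I : Type} {K : I → Type} [∀ i, Field (K i)] {q s : ℕ}
    {f : I → ℤ[X]} {πA : A ⟶ A} {πZ : Z ⟶ Z} (h : IsCase H K q s f πA πZ) :
    IsSituation H K q s f πA πZ :=
  ⟨h.standard, h.pos, h.abelian, h.independent, h.nilpotence⟩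

theorem perfectAt_iff (X : 𝒱.Obj) (n : ℤ) : PerfectAt C X n ↔ Y154.BQ.PerfectIn C X n := Iff.rfl

end

variable {I : Type} {K : I → Type} [∀ i, Field (K i)] {q : ℕ} (hq : 1 < q) {f : I → ℤ[X]}
  (hR : NoRel f q (Independent K))

include hq hR

theorem ncParshinTimes : NCParshinTimes K q f :=
  fun k _ 𝒱 C _ hI F _ _ _ H _ s A Z πA πZ h =>
    ncKGroupsTimes hq hR k 𝒱 C hI F H s A Z πA πZ (isSituation_of h)

theorem perfectPairingTimes : PerfectPairingTimes K q f :=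
  fun k _ 𝒱 C _ F _ _ _ H _ s A Z πA πZ h hF =>
    have h1 := pairingTimes hq hR k 𝒱 C F H s A Z πA πZ (isSituation_of h) hF
    ⟨h1.1, h1.2.2⟩

end Pool.Agent.Y1.CT
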