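import Mathlib
import Pool.Agent.Y1.CT.UnrelDefs
import Pool.Agent.Y1.CT.Kun
import Pool.Agent.Y1.CT.Light
import Pool.Agent.Y1.TS.Angle

/-!
# Products of Weil numbers of maximal angle rank and unrelated numbers
-/

set_option autoImplicit false
set_option linter.unusedSectionVars false
set_option linter.unusedVariables false

namespace Pool.Agent.Y1.CT

open NumberField Finset Module Polynomial Pool.Agent.H204R3.CM Pool.Agent.H977R3.CM
  Pool.Agent.TH170.CM Pool.Agent.TH170.MF Pool.Agent.TH170.FW Pool.Agent.H204R3.GP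
  Pool.Agent.TH170.GS Pool.Agent.W484.HS Pool.Agent.TH170 Pool.Agent.Y137.MV Pool.Agent.Y1.KN

variable {p : ℕ} [Fact p.Prime] {ν : PadicAlgCl p ≃+* ℂ} {a : ℕ} {I : Type} [Fintype I]
  {K : I → Type} [∀ i, Field (K i)] [∀ i, NumberField (K i)] [∀ i, IsCMField (K i)]

/-- The number `1` is unrelated to all CM fields. -/
theorem unrelated_one {I : Type} (K : I → Type) [∀ i, Field (K i)] : Unrelated K 1 := by
  refine ⟨one_ne_zero, fun i n hn h => ?_⟩
  funext φ
  have h1 := h (starRingAut : ℂ ≃+* ℂ) ⟨1, one_pos, by simp⟩ φ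
  have h2 : ((starRingAut : ℂ ≃+* ℂ) : ℂ →+* ℂ).comp φ = ComplexEmbedding.conjugate φ := by
    ext x
    rfl
  rw [h2, hn] at h1
  simp only [Pi.zero_apply]
  linarith

/-- An independent number is unrelated. -/
theorem unrelated_of_independent {I : Type} {K : I → Type} [∀ i, Field (K i)] {ρ : ℂ}
    (h : Independent K ρ) : Unrelated K ρ := by
  refine ⟨h.1, fun i n hn hinv => ?_⟩
  funext φ
  obtain ⟨τ, m, hm, h1, h2⟩ := h.2 i φ
  have h3 := hinv τ ⟨m, hm, h1⟩ φ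
  have h4 : (τ : ℂ →+* ℂ).comp φ = ComplexEmbedding.conjugate φ := by
    ext x
    exact h2 x
  rw [h4, hn] at h3
  simp only [Pi.zero_apply]
  linarith

theorem prod_count {X Y : Type} [Fintype Y] [DecidableEq Y] (idx : X → Y) (w : Y → ℂ)
    (v : X → ℂ) (hv : ∀ z, v z = w (idx z)) (s : ℕ) (l : List X) :
    (l.map fun z => v z ^ s).prod = ∏ y, w y ^ (s * (l.map idx).count y) := by
  induction l with
  | nil => simp
  | cons a l ih =>
    rw [List.map_cons, List.prod_cons, ih, List.map_cons, hv]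
    have h1 : ∀ y, w y ^ (s * (idx a :: l.map idx).count y) =
        w y ^ (s * (l.map idx).count y) * (if idx a = y then w y ^ s else 1) := by
      intro y
      rw [List.count_cons]
      by_cases h : idx a = y
      · rw [if_pos (by simpa using h), if_pos h, mul_add, pow_add, mul_one]
      · rw [if_neg (by simpa using h), if_neg h, add_zero, mul_one]
    rw [Finset.prod_congr rfl (fun y _ => h1 y), Finset.prod_mul_distrib, Finset.prod_ite_eq,
      if_pos (Finset.mem_univ _), mul_comm]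

/-- There are no relations with unrelated numbers. -/
theorem exactPair_of_angle {π : ∀ i, K i} (hang : MaximalAngleRank (p ^ a) π)
    (hw : ∀ i, π i * IsCMField.complexConj (K i) (π i) = (p : K i) ^ a) (f : I → ℤ[X])
    (hf : ∀ i, IsPolyOf (π i) (f i)) (s : ℕ) (hs : 0 < s) (ρ : ℂ) (hρ : Unrelated K ρ) :
    ExactPairK (fun z : Root f => (z : ℂ) ^ s) (((p ^ a : ℕ) : ℂ) ^ s) ρ := by
  classical
  intro n c N hN hn ys hlen hrel hpw
  have hp0 : (p : ℂ) ≠ 0 := Nat.cast_ne_zero.2 (Fact.out : p.Prime).ne_zero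
  have hq0 : ((p ^ a : ℕ) : ℂ) ≠ 0 := by
    push_cast
    exact pow_ne_zero _ hp0
  have hπ0 : ∀ i, π i ≠ 0 := by
    intro i h0
    have h1 := hw i
    rw [h0, zero_mul] at h1
    exact pow_ne_zero a (Nat.cast_ne_zero.2 (Fact.out : p.Prime).ne_zero) h1.symm
  let Y : Type := Σ i, (K i →+* ℂ)
  let w : Y → ℂ := fun y => y.2 (π y.1)
  have hw0 : ∀ y, w y ≠ 0 := fun y => (_root_.map_ne_zero _).2 (hπ0 _)
  have hz : ∀ z : Root f, ∃ y : Y, w y = z := by
    rintro ⟨z, i, hi⟩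
    obtain ⟨φ, hφ⟩ := (hf i).2 z hi
    exact ⟨⟨i, φ⟩, hφ⟩
  choose idx hidx using hz
  let inv : Y → Y := fun z => ⟨z.1, ComplexEmbedding.conjugate z.2⟩
  let cnt : Y → ℕ := fun y => (ys.map idx).count y
  have hrel1 : ((∏ y, w y ^ (s * cnt y)) * ρ) ^ N = ((((p ^ a : ℕ) : ℂ) ^ s) ^ c) ^ N := by
    rw [← hrel, prod_count idx w (fun z : Root f => (z : ℂ)) (fun z => (hidx z).symm) s ys]
  have hcnt : ∀ y : Y, cnt y = cnt (inv y) := by
    rintro ⟨i, φ⟩
    let m : (K i →+* ℂ) → ℚ := fun ψ =>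
      (cnt ⟨i, ψ⟩ : ℚ) - (cnt ⟨i, ComplexEmbedding.conjugate ψ⟩ : ℚ)
    have hodd : ∀ ψ, m (ComplexEmbedding.conjugate ψ) = - m ψ := by
      intro ψ
      simp only [m, conj_conj]
      ring
    have hinv : ∀ τ : ℂ ≃+* ℂ, (∃ t : ℕ, 0 < t ∧ τ (ρ ^ t) = ρ ^ t) →
        ∀ ψ : K i →+* ℂ, m ((τ : ℂ →+* ℂ).comp ψ) = m ψ := by
      rintro τ ⟨t, ht, hτ⟩ ψ
      let tr : Y ≃ Y :=
        { toFun := fun y => ⟨y.1, (τ : ℂ →+* ℂ).comp y.2⟩
          invFun := fun y => ⟨y.1, (τ.symm : ℂ →+* ℂ).comp y.2⟩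
          left_inv := fun y => by
            have h1 : (τ.symm : ℂ →+* ℂ).comp ((τ : ℂ →+* ℂ).comp y.2) = y.2 := by
              ext x
              simp
            exact Sigma.ext rfl (heq_of_eq h1)
          right_inv := fun y => by
            have h1 : (τ : ℂ →+* ℂ).comp ((τ.symm : ℂ →+* ℂ).comp y.2) = y.2 := by
              ext x
              simp
            exact Sigma.ext rfl (heq_of_eq h1) }
      -- the relation and its image
      have hA : (∏ y, w y ^ (s * cnt y)) ^ (N * t) * ρ ^ (N * t) =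
          ((((p ^ a : ℕ) : ℂ) ^ s) ^ c) ^ (N * t) := by
        rw [← mul_pow, pow_mul, hrel1, ← pow_mul]
      have hB : (∏ y, w (tr y) ^ (s * cnt y)) ^ (N * t) * ρ ^ (N * t) =
          ((((p ^ a : ℕ) : ℂ) ^ s) ^ c) ^ (N * t) := by
        have h1 := congrArg τ hA
        rw [map_mul, map_pow τ (∏ y, w y ^ (s * cnt y)), map_prod] at h1
        have h2 : τ (ρ ^ (N * t)) = ρ ^ (N * t) := by
          rw [mul_comm, pow_mul, map_pow, hτ]
        rw [h2] at h1
        have h3 : τ (((((p ^ a : ℕ) : ℂ) ^ s) ^ c) ^ (N * t)) =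
            ((((p ^ a : ℕ) : ℂ) ^ s) ^ c) ^ (N * t) := by
          rw [map_pow, map_zpow₀, map_pow, map_natCast]
        rw [h3] at h1
        rw [← h1]
        congr 2
        refine Finset.prod_congr rfl fun y _ => ?_
        rw [map_pow]
        rfl
      have hρ0 : ρ ^ (N * t) ≠ 0 := pow_ne_zero _ hρ.1
      have hC : (∏ y, w (tr y) ^ (s * cnt y)) ^ (N * t) = (∏ y, w y ^ (s * cnt y)) ^ (N * t) :=
        mul_right_cancel₀ hρ0 (hB.trans hA.symm)
      have hD : ∏ y, w (tr y) ^ (s * cnt y) = ∏ y, w y ^ (s * cnt (tr.symm y)) := by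
        refine Fintype.prod_equiv tr _ _ fun y => ?_
        rw [Equiv.symm_apply_apply]
      rw [hD, ← Finset.prod_pow, ← Finset.prod_pow] at hC
      have hE : ∏ y : Y, (y.2 (π y.1)) ^ (((s * (N * t) : ℕ) : ℤ) *
          ((cnt (tr.symm y) : ℤ) - cnt y)) = (((p ^ a : ℕ)) : ℂ) ^ (0 : ℤ) := by
        have h1 : ∀ y : Y, (y.2 (π y.1)) ^ (((s * (N * t) : ℕ) : ℤ) *
            ((cnt (tr.symm y) : ℤ) - cnt y)) =
            (w y ^ (s * cnt (tr.symm y))) ^ (N * t) / (w y ^ (s * cnt y)) ^ (N * t) := by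
          intro y
          change w y ^ _ = _
          rw [mul_sub, zpow_sub₀ (hw0 y), ← pow_mul, ← pow_mul, ← zpow_natCast, ← zpow_natCast]
          congr 2
          · push_cast
            ring
          · push_cast
            ring
        rw [Finset.prod_congr rfl (fun y _ => h1 y), Finset.prod_div_distrib, hC, zpow_zero]
        exact div_self (Finset.prod_ne_zero_iff.2 fun y _ =>
          pow_ne_zero _ (pow_ne_zero _ (hw0 y)))
      have hF := hang 0 (fun y => ((s * (N * t) : ℕ) : ℤ) * ((cnt (tr.symm y) : ℤ) - cnt y)) hE i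
        ((τ : ℂ →+* ℂ).comp ψ)
      have hNt : ((s * (N * t) : ℕ) : ℤ) ≠ 0 := by
        exact_mod_cast (Nat.mul_pos hs (Nat.mul_pos hN ht)).ne'
      have hG := mul_left_cancel₀ hNt hF
      have h4 : tr.symm ⟨i, (τ : ℂ →+* ℂ).comp ψ⟩ = ⟨i, ψ⟩ := by
        rw [Equiv.symm_apply_eq]
        rfl
      have h5 : tr.symm ⟨i, ComplexEmbedding.conjugate ((τ : ℂ →+* ℂ).comp ψ)⟩ =
          ⟨i, ComplexEmbedding.conjugate ψ⟩ := by
        rw [Equiv.symm_apply_eq]
        change _ = (⟨i, (τ : ℂ →+* ℂ).comp (ComplexEmbedding.conjugate ψ)⟩ : Y)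
        rw [QC.comp_conj]
      rw [h4, h5] at hG
      have hH : (((cnt ⟨i, ψ⟩ : ℤ) - cnt ⟨i, (τ : ℂ →+* ℂ).comp ψ⟩ : ℤ) : ℚ) =
          (((cnt ⟨i, ComplexEmbedding.conjugate ψ⟩ : ℤ) -
            cnt ⟨i, ComplexEmbedding.conjugate ((τ : ℂ →+* ℂ).comp ψ)⟩ : ℤ) : ℚ) := by
        rw [hG]
      push_cast at hH
      simp only [m]
      linarith
    have h0 := hρ.2 i m hodd hinv
    have h1 : m φ = 0 := by rw [h0]; rfl
    simp only [m] at h1
    have h2 := sub_eq_zero.1 h1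
    exact_mod_cast h2
  -- the first element of the list
  obtain ⟨z₀, hz₀⟩ := List.exists_mem_of_length_pos (l := ys) (by omega)
  have h1 : 0 < cnt (idx z₀) := List.count_pos_iff.2 (List.mem_map_of_mem hz₀)
  rw [hcnt] at h1
  obtain ⟨z₁, hz₁, h2⟩ := List.mem_map.1 (List.count_pos_iff.1 h1)
  have hne : z₀ ≠ z₁ := by
    rintro rfl
    have h3 : (idx z₀).2 = ComplexEmbedding.conjugate (idx z₀).2 := by
      have h4 : idx z₀ = ⟨(idx z₀).1, ComplexEmbedding.conjugate (idx z₀).2⟩ := h2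
      exact eq_of_heq (Sigma.mk.inj h4).2
    exact conj_ne _ h3.symm
  have hsymm : Std.Symm (fun y y' : Root f => (y : ℂ) ^ s * (y' : ℂ) ^ s ≠
      ((p ^ a : ℕ) : ℂ) ^ s) := ⟨by
    intro x y h h'
    exact h (by rw [mul_comm]; exact h')⟩
  refine hpw.forall hz₀ hz₁ hne ?_
  have h3 : (z₁ : ℂ) = ComplexEmbedding.conjugate (idx z₀).2 (π (idx z₀).1) := by
    rw [← hidx z₁, h2]
  change (z₀ : ℂ) ^ s * (z₁ : ℂ) ^ s = _
  rw [h3, ← hidx z₀, ← mul_pow]
  congr 1
  have h4 := congrArg (idx z₀).2 (hw (idx z₀).1)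
  rw [map_mul, IsCMField.complexEmbedding_complexConj, map_pow, map_natCast] at h4
  change (idx z₀).2 (π (idx z₀).1) * _ = _
  rw [ComplexEmbedding.conjugate_coe_eq, h4]
  push_cast
  rfl

/-- The bound for the families of slope types. -/
theorem ncard_of_unrel :
    ∃ C : ℝ, 0 ≤ C ∧ ∀ (p : ℕ) [Fact p.Prime] (ν : PadicAlgCl p ≃+* ℂ) (I : Type) [Fintype I]
      (K : I → Type) [∀ i, Field (K i)] [∀ i, NumberField (K i)] [∀ i, IsCMField (K i)]
      (M : ∀ i, (K i →+* ℂ) → ℤ) (n g q : I → ℕ), PairwiseIndep K →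
      (∀ i φ, M i (ComplexEmbedding.conjugate φ) = M i φ) → (∀ i, n i ≠ 0) →
      (∀ i φ, M i φ ∣ (n i : ℤ)) → (∀ i, finrank ℚ (K i) = 2 * g i) →
      (∀ i, q i ∣ g i ∧ (q i = 1 ∨ (q i).Prime)) →
      ∀ P : ℕ → (I → ℤ[X]) → Prop,
      (∀ (Q : ℕ) (f : I → ℤ[X]), 1 < Q → NoRel f Q (Unrelated K) → P Q f) →
      (({Φ : ∀ i, Set (K i →+* ℂ) | (∀ i, IsCMType (Φ i)) ∧
        ¬ ForAllTypes ν K M P Φ}.ncard : ℕ) : ℝ) ≤
        2 ^ (∑ i, g i) * ∑ i, C * (n i : ℝ) ^ 2 * rate (K i) (g i) (q i) := by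
  obtain ⟨C, hC0, hC⟩ := families_holds
  refine ⟨C, hC0, ?_⟩
  intro p _ ν I _ K _ _ _ M n g q hind hM hn hMn hg hq P hP
  refine hC I K M n g q hM hn hMn hg hq (ForAllTypes ν K M P) fun Φ hΦ hnd => ?_
  intro a π f ha hπ hf
  refine hP (p ^ a) f (Nat.one_lt_pow ha.ne' (Fact.out : p.Prime).one_lt)
    ⟨fun i => (hf i).1, unrelated_one K, fun s hs ρ hρ => ?_⟩
  exact exactPair_of_angle (TS.angle_types hind hM hΦ hnd hπ) (fun i => (hπ i).weil) f hf s hs ρ hρ

end Pool.Agent.Y1.CT
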