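import Mathlib
import Pool.Agent.Y156.L.Props
import Pool.Agent.Y1.CT.IndepDefs

/-!
# Theories relative to a scheme and products with abelian varieties: the properties
-/

set_option autoImplicit false

namespace Pool.Agent.Y1.CT.L

open Polynomial Pool.Agent.Y156.L

/-- The Frobenius endomorphism of `U` satisfies, on the elements considered in `InvM`, for all `i` and
`j`, a nonzero rational polynomial whose complex roots are independent of the fields `K i`. In
`ℓ`-adic cohomology this is a condition on the eigenvalues of the Frobenius endomorphism of `U`. -/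
def HasIndependent {F : Type} [Field F] {A : AbelianData F} (T : RelData A) (Q : ℕ) {I : Type}
    (K : I → Type) [∀ i, Field (K i)] : Prop :=
  ∀ i j : ℤ, ∃ χ : ℚ[X], χ ≠ 0 ∧ (∀ ρ : ℂ, aeval ρ χ = 0 → Independent K ρ) ∧
    ∀ m, T.InvM Q i j m → aeval T.frobM χ m = 0

/-- `TateTimes K q f`: for every abelian variety `A` as in `IsAbelian` there are finitely
many products `D t` of divisor classes on `A`, such that for all `R` (cohomology) relative to any
scheme `U`, with the formal properties and with eigenvalues independent of the fields `K i`: the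
Kunneth formula holds, and for all `T` (motivic cohomology) relative to `U` with a regulator to `R`, and all `i`, `j`, the
regulator of `A × U` in bidegree `(i, j)` is onto the Frobenius invariants if and only if those of
`U` in the bidegrees `(i - 2 k, j - k)`, `0 ≤ k ≤ dim A`, are. -/
def TateTimes {I : Type} (K : I → Type) [∀ i, Field (K i)] (q : ℕ) (f : I → ℤ[X]) : Prop :=
  ∀ (F : Type) [Field F] [CharZero F] (A : AbelianData F) (s : ℕ), IsAbelian A q s f →
    ∃ (J : Type) (_ : Fintype J) (c : J → ℕ) (D : J → A.CH), IsFamily A c D ∧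
      ∀ R : RelData A, IsRel (q ^ s) R → HasIndependent R (q ^ s) K → R.Kunneth (q ^ s) c D ∧
        ∀ (T : RelData A) (ρ : Regulator T R), IsRel (q ^ s) T → IsRegulator ρ →
          ∀ i j : ℤ, OntoM ρ (q ^ s) i j ↔
            ∀ k : ℕ, k ≤ A.dim → OntoN ρ (q ^ s) (i - 2 * k) (j - k)

/-- `BeilinsonTimes K q f`: for every abelian variety `A` as in `IsAbelian` there are
finitely many products `D t` of divisor classes on `A`, such that for all `T` (motivic cohomology)
relative to any scheme `U`, with the formal properties, pure and with eigenvalues independent of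
the fields `K i`: the Kunneth formula holds, and for all `R` (cohomology) relative to `U` with a regulator from `T` to `R`,
and all `i`, `j`, the regulator of `A × U` in bidegree `(i, j)` is injective if and only if those
of `U` in the bidegrees `(i - 2 k, j - k)`, `0 ≤ k ≤ dim A`, are. -/
def BeilinsonTimes {I : Type} (K : I → Type) [∀ i, Field (K i)] (q : ℕ) (f : I → ℤ[X]) : Prop :=
  ∀ (F : Type) [Field F] [CharZero F] (A : AbelianData F) (s : ℕ), IsAbelian A q s f →
    ∃ (J : Type) (_ : Fintype J) (c : J → ℕ) (D : J → A.CH), IsFamily A c D ∧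
      ∀ T : RelData A, IsRel (q ^ s) T → T.IsPure (q ^ s) → HasIndependent T (q ^ s) K →
        T.Kunneth (q ^ s) c D ∧
        ∀ (R : RelData A) (ρ : Regulator T R), IsRel (q ^ s) R → IsRegulator ρ →
          ∀ i j : ℤ, InjectiveM ρ i j ↔ ∀ k : ℕ, k ≤ A.dim → InjectiveN ρ (i - 2 * k) (j - k)

/-- `ParshinTimes K q f`: for every abelian variety `A` as in `IsAbelian` there are
finitely many products `D t` of divisor classes on `A`, such that for all `T` (motivic cohomology)
relative to any scheme `Z`, with the formal properties, pure and with eigenvalues independent of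
the fields `K i`: the Kunneth formula holds, and for all `i`, `j` the group `H^i(A × Z, j)` is zero if and only if the
groups `H^(i - 2 k)(Z, j - k)`, `0 ≤ k ≤ dim A`, are zero. -/
def ParshinTimes {I : Type} (K : I → Type) [∀ i, Field (K i)] (q : ℕ) (f : I → ℤ[X]) : Prop :=
  ∀ (F : Type) [Field F] [CharZero F] (A : AbelianData F) (s : ℕ), IsAbelian A q s f →
    ∃ (J : Type) (_ : Fintype J) (c : J → ℕ) (D : J → A.CH), IsFamily A c D ∧
      ∀ T : RelData A, IsRel (q ^ s) T → T.IsPure (q ^ s) → HasIndependent T (q ^ s) K →
        T.Kunneth (q ^ s) c D ∧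
        ∀ i j : ℤ, T.grM i j = ⊥ ↔ ∀ k : ℕ, k ≤ A.dim → T.grN (i - 2 * k) (j - k) = ⊥

/-- `PerfectTimes K q f`: for every abelian variety `A` as in `IsAbelian` there are
finitely many products `D t` of divisor classes on `A`, such that for all `T` (motivic cohomology)
relative to any smooth projective scheme `Z` of any dimension `d`, with the formal properties, pure
and with eigenvalues independent of the fields `K i`: the Kunneth formula holds, and for all `i`,
`j` the cup product pairing `H^i(A × Z, j) × H^(2 (dim A + d) - i)(A × Z, dim A + d - j) → ℚ` is perfect if and only if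
the pairings `H^(i - 2 k)(Z, j - k) × H^(2 d - (i - 2 k))(Z, d - (j - k)) → ℚ`, `0 ≤ k ≤ dim A`, are
perfect. -/
def PerfectTimes {I : Type} (K : I → Type) [∀ i, Field (K i)] (q : ℕ) (f : I → ℤ[X]) : Prop :=
  ∀ (F : Type) [Field F] [CharZero F] (A : AbelianData F) (s : ℕ), IsAbelian A q s f →
    ∃ (J : Type) (_ : Fintype J) (c : J → ℕ) (D : J → A.CH), IsFamily A c D ∧
      ∀ T : RelData A, IsRel (q ^ s) T → T.IsPure (q ^ s) → HasIndependent T (q ^ s) K →
        T.Kunneth (q ^ s) c D ∧ ∀ B : CupProduct T, IsCupProduct B →
          ∀ d i j : ℤ, PerfectM B (A.dim + d) i j ↔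
            ∀ k : ℕ, k ≤ A.dim → PerfectN B d (i - 2 * k) (j - k)

end Pool.Agent.Y1.CT.L
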