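import Mathlib
import Pool.Agent.Y156.L.Thms
import Pool.Agent.Y1.CT.LDefs
import Pool.Agent.Y1.CT.Kun

/-!
# Theories relative to a scheme and products with abelian varieties: the proofs
-/

set_option autoImplicit false
set_option linter.unusedSectionVars false
set_option linter.unusedVariables false

namespace Pool.Agent.Y1.CT.L

open Module Polynomial Pool.Agent.W484.HS Pool.Agent.Y156.L

theorem coeff_ne {I : Type} {K : I → Type} [∀ i, Field (K i)] {χ : ℚ[X]}
    (h : ∀ ρ : ℂ, aeval ρ χ = 0 → Independent K ρ) : χ.coeff 0 ≠ 0 := by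
  intro h0
  refine (h 0 ?_).1 rfl
  rw [← coeff_zero_eq_aeval_zero', h0, map_zero]

variable {F : Type} [Field F] [CharZero F] {A : AbelianData F}

variable {I : Type} {K : I → Type} [∀ i, Field (K i)] {q : ℕ} (hq : 1 < q) {f : I → ℤ[X]}
  (hR : NoRel f q (Independent K))

include hq hR in
/-- **Existence of a good basis.** -/
theorem exists_good_basis {s : ℕ} (hA : IsAbelian A q s f) :
    ∃ (n : ℕ) (b : Basis (Fin n) F A.H) (α : Fin n → F),
      (∀ t, A.frobH (b t) = α t • b t) ∧ (∀ t, IsIntegral ℚ (α t)) ∧ (∀ t, α t ≠ 0) ∧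
      ∀ (χ : ℚ[X]), χ ≠ 0 → (∀ ρ : ℂ, aeval ρ χ = 0 → Independent K ρ) → ∀ ρ : F, aeval ρ χ = 0 →
        ∀ t (c : ℤ), α t * ρ = ((q ^ s : ℕ) : F) ^ c →
          ∃ l : ℕ, α t = ((q ^ s : ℕ) : F) ^ l ∧ b t ∈ NK A l := by
  have hfin := hA.finite
  have hs := hA.pos
  have hq0 : q ≠ 0 := by omega
  let val : {z : F // ∃ i, aeval z (f i) = 0} → F := fun z => (z : F) ^ s
  have hU : Submodule.span F {v : A.H | v ∈ A.H1 ∧ ∃ y, A.frobH v = val y • v} = A.H1 := by
    refine Eq.trans ?_ hA.spanned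
    congr 1
    ext v
    constructor
    · rintro ⟨h1, ⟨z, i, hz⟩, h2⟩
      exact ⟨h1, i, z, hz, h2⟩
    · rintro ⟨h1, i, z, hz, h2⟩
      exact ⟨h1, ⟨z, i, hz⟩, h2⟩
  obtain ⟨n, b, α, hb⟩ := Pool.Agent.W484.CH.exists_basis A.frobH val A.H1 hU hA.generated
  have hQ : ((q ^ s : ℕ) : F) = (q : F) ^ s := by push_cast; rfl
  have hQ0 : (q : F) ^ s ≠ 0 := pow_ne_zero _ (by exact_mod_cast hq0)
  refine ⟨n, b, α, fun t => (hb t).1, fun t => ?_, fun t => ?_, ?_⟩
  · obtain ⟨-, L, -, -, hL⟩ := hb t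
    rw [hL]
    clear hL
    induction L with
    | nil => simpa using isIntegral_one
    | cons a L ih =>
      rw [List.map_cons, List.prod_cons]
      refine IsIntegral.mul ?_ ih
      obtain ⟨i, hi⟩ := a.2.2
      have h1 : IsIntegral ℤ (a.2 : F) := ⟨f i,
        hR.monic i, hi⟩
      exact (h1.tower_top (A := ℚ)).pow s
  · intro h0
    refine b.ne_zero t (hA.nondeg _ fun a => ?_)
    have h1 := hA.tr_frob (b t * a)
    rw [map_mul, (hb t).1, h0, zero_smul, zero_mul, map_zero] at h1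
    exact (mul_eq_zero.1 h1.symm).resolve_left (pow_ne_zero _ (by rw [hQ]; exact hQ0))
  · intro χ hχ hrank ρ hρ t c hc
    obtain ⟨-, L, hL1, hL2, hL3⟩ := hb t
    have hpair := exactPair_field f hR.monic q s χ hχ (fun ρ hρ => hR.pair s hs ρ (hrank ρ hρ)) ρ hρ
    have h1 := Pool.Agent.W484.CH.list_graded A.frobH val ((q : F) ^ s) ρ hQ0 hpair (NK A)
      one_mem_NK
      (fun a ha l b hb => by
        rw [add_comm l 1]
        exact mul_mem_NK ha hb)
      (A.H1 : Set A.H) (fun a ha b hb => hA.anticomm a ha b hb)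
      (fun a ha b hb y y' h2 h3 h4 => by
        apply mem_NK_one
        refine hA.tate (a * b) (Submodule.mul_mem_mul ha hb) ?_
        rw [map_mul, h2, h3, smul_mul_smul_comm, h4, hQ])
      L.length c 1 one_pos L rfl hL1 (by rw [pow_one, pow_one, ← hL3, ← hQ]; exact hc)
    obtain ⟨l, -, h2, h3⟩ := h1
    refine ⟨l, ?_, ?_⟩
    · rw [hL3, h2, hQ]
    · rw [hL2]
      exact h3

include hq hR in
/-- **The Kunneth formula, for all theories of rank at most `r` over `E`.** -/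
theorem exists_classes {s : ℕ} (hA : IsAbelian A q s f) :
    ∃ (J : Type) (_ : Fintype J) (c : J → ℕ) (D E' : J → A.CH), IsFamily A c D ∧
      IsDual A c D E' ∧ q ^ s ≠ 0 ∧
      ∀ T : RelData A, IsRel (q ^ s) T → HasIndependent T (q ^ s) K →
        ∀ (i j : ℤ) (m : T.M), T.InvM (q ^ s) i j m →
          m = ∑ t, T.times (D t) (T.pair (E' t) m) ∧
          m = ∑ t, T.times (E' t) (T.pair (D t) m) := by
  obtain ⟨n, b, α, hb, hα, hα0, hgood⟩ := exists_good_basis hq hR hA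
  have hs := hA.pos
  have hQ1 : 1 < q ^ s := Nat.one_lt_pow hs.ne' hq
  have hX1 : (Polynomial.X - 1 : ℚ[X]) ≠ 0 := by
    have := Polynomial.X_sub_C_ne_zero (1 : ℚ)
    rwa [map_one] at this
  have h1 : ∀ t (c : ℤ), α t = ((q ^ s : ℕ) : F) ^ c →
      ∃ l : ℕ, α t = ((q ^ s : ℕ) : F) ^ l ∧ b t ∈ NK A l := by
    intro t c hc
    exact hgood _ hX1 (root_one hR) 1
      (by rw [map_sub, aeval_X, map_one, sub_self]) t c (by rw [mul_one]; exact hc)
  obtain ⟨J, hJ, c, D, E', hdual, hD, hE, hN⟩ := exists_dual hA hQ1 b α hb h1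
  have hN' := span_dual hA hQ1 b α hb h1 hdual hE hN
  have hfam : IsFamily A c D :=
    ⟨hD, hdual.le, fun k hk => exists_codim hA hQ1 b α hb h1 hN hk⟩
  refine ⟨J, hJ, c, D, E', hfam, hdual, by omega, fun T hT hrk i j m hm => ?_⟩
  obtain ⟨χ, hχ, hrank, hkillψ⟩ := hrk i j
  obtain ⟨P, hP, hmix⟩ := exists_kill b α hb hα hα0 χ ((((q ^ s : ℕ) : ℚ)) ^ j) (by
    intro ρ hρ t ht
    obtain ⟨l, -, hl⟩ := hgood χ hχ hrank ρ hρ t j (by rw [ht]; push_cast; rfl)
    exact ⟨l, hl⟩)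
  have hV1 : ∀ m ∈ invSub T (q ^ s) i j, T.frobM m ∈ invSub T (q ^ s) i j :=
    fun m hm => inv_frob hT hm
  have hV2 : ∀ m ∈ invSub T (q ^ s) i j, T.act A.frob (T.frobM m) =
      ((q ^ s : ℕ) : ℚ) ^ j • m := fun m hm => hm.2
  have hV : ∀ m ∈ invSub T (q ^ s) i j, T.act A.frob m ∈ invSub T (q ^ s) i j := fun m hm =>
    stable_of _ T.frobM _ _ hV1 hV2 χ (coeff_ne hrank) hkillψ hm
  have hR : ∀ m ∈ invSub T (q ^ s) i j,
      aeval (T.act A.frob) (rev χ (((q ^ s : ℕ) : ℚ) ^ j)) m = 0 :=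
    fun m hm => aeval_rev_op _ T.frobM _ _ hV1 hV2 χ hkillψ hm
  exact ⟨rel_core hA hT hdual P _ hP
      (fun w => act_proj_mix hA hdual hN (hmix w)) _ hV hR hm,
    rel_core hA hT hdual.symm P _ hP
      (fun w => act_proj_mix hA hdual.symm hN' (hmix w)) _ hV hR hm⟩

include hq hR

theorem tateTimes : TateTimes K q f := by
  intro F _ _ A s hA
  obtain ⟨J, hJ, c, D, E', hF, hdual, hQ, hmain⟩ := exists_classes hq hR hA
  refine ⟨J, hJ, c, D, hF, fun R hR hrank => ?_⟩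
  have hexp := fun i j m hm => (hmain R hR hrank i j m hm).1
  exact ⟨kunneth_of hQ hR hdual hexp, fun T ρ hT hc i j =>
    tate_iff hF hdual hQ hT hR hc hexp i j⟩

theorem beilinsonTimes : BeilinsonTimes K q f := by
  intro F _ _ A s hA
  obtain ⟨J, hJ, c, D, E', hF, hdual, hQ, hmain⟩ := exists_classes hq hR hA
  refine ⟨J, hJ, c, D, hF, fun T hT hpure hrank => ?_⟩
  have hexp := fun i j m hm => (hmain T hT hrank i j m hm).1
  exact ⟨kunneth_of hQ hT hdual hexp, fun R ρ _ hc i j =>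
    beilinson_iff hF hdual hT hc (fun i j m hm => hexp i j m (hpure i j m hm)) i j⟩

theorem parshinTimes : ParshinTimes K q f := by
  intro F _ _ A s hA
  obtain ⟨J, hJ, c, D, E', hF, hdual, hQ, hmain⟩ := exists_classes hq hR hA
  refine ⟨J, hJ, c, D, hF, fun T hT hpure hrank => ?_⟩
  have hexp := fun i j m hm => (hmain T hT hrank i j m hm).1
  exact ⟨kunneth_of hQ hT hdual hexp, fun i j =>
    parshin_iff hF hdual hT (fun i j m hm => hexp i j m (hpure i j m hm)) i j⟩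

theorem perfectTimes : PerfectTimes K q f := by
  intro F _ _ A s hA
  obtain ⟨J, hJ, c, D, E', hF, hdual, hQ, hmain⟩ := exists_classes hq hR hA
  refine ⟨J, hJ, c, D, hF, fun T hT hpure hrank => ?_⟩
  have hexp := fun i j m hm => (hmain T hT hrank i j m hm).1
  have hexp' := fun i j m hm => (hmain T hT hrank i j m hm).2
  exact ⟨kunneth_of hQ hT hdual hexp, fun B hB d i j =>
    perfect_iff hF hdual hT hB (fun i j m hm => hexp i j m (hpure i j m hm))
      (fun i j m hm => hexp' i j m (hpure i j m hm)) d i j⟩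

end Pool.Agent.Y1.CT.L
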